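import Mathlib

open scoped TensorProduct

noncomputable section

namespace Pool.Agent.MP_d87fde_al

/-- The complex group algebra. -/
abbrev GA (Γ : Type) [Group Γ] : Type := MonoidAlgebra ℂ Γ

section Star

variable {Γ : Type} [Group Γ]

open MonoidAlgebra

/-- The involution of the group algebra as an additive map, `c g ↦ conj(c) g⁻¹`. -/
def starHom : GA Γ →+ GA Γ :=
  MonoidAlgebra.liftNC (R := GA Γ)
    ((algebraMap ℂ (GA Γ)).toAddMonoidHom.comp (starRingEnd ℂ).toAddMonoidHom)
    (fun g => single g⁻¹ 1)

lemma starHom_single (g : Γ) (c : ℂ) : starHom (single g c) = single g⁻¹ (starRingEnd ℂ c) := by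
  simp [starHom, MonoidAlgebra.liftNC_single]

lemma starHom_starHom (a : GA Γ) : starHom (starHom a) = a := by
  induction a using MonoidAlgebra.induction_linear with
  | zero => simp
  | add x y hx hy => simp [hx, hy]
  | single g c => simp [starHom_single]

lemma starHom_mul (a b : GA Γ) : starHom (a * b) = starHom b * starHom a := by
  induction a using MonoidAlgebra.induction_linear with
  | zero => simp
  | add x y hx hy => simp [hx, hy, add_mul, mul_add]
  | single g c =>
    induction b using MonoidAlgebra.induction_linear with
    | zero => simp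
    | add x y hx hy => simp [hx, hy, add_mul, mul_add]
    | single h d => simp [starHom_single, single_mul_single, mul_comm]

instance : StarRing (GA Γ) where
  star := starHom
  star_involutive := starHom_starHom
  star_mul := starHom_mul
  star_add := map_add _

lemma star_single (g : Γ) (c : ℂ) : star (single g c : GA Γ) = single g⁻¹ (starRingEnd ℂ c) :=
  starHom_single g c

instance : StarModule ℂ (GA Γ) where
  star_smul c a := by
    induction a using MonoidAlgebra.induction_linear with
    | zero => simp
    | add x y hx hy => simp [hx, hy, smul_add]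
    | single g d => simp [star_single, smul_single]

/-- the group element `g` as an element of the group algebra -/
def gl (g : Γ) : GA Γ := single g 1

lemma gl_mul (g h : Γ) : gl g * gl h = gl (g * h) := by simp [gl, single_mul_single]
lemma gl_one : gl (1 : Γ) = 1 := by simp [gl, one_def]
lemma star_gl (g : Γ) : star (gl g) = gl g⁻¹ := by simp [gl, star_single]
lemma single_eq_smul_gl (g : Γ) (c : ℂ) : (single g c : GA Γ) = c • gl g := by simp [gl]

/-- induction principle -/
@[elab_as_elim]
lemma GA.ind {P : GA Γ → Prop} (a : GA Γ) (zero : P 0) (add : ∀ x y, P x → P y → P (x + y))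
    (smul : ∀ (c : ℂ) x, P x → P (c • x)) (gl : ∀ g, P (gl g)) : P a := by
  induction a using MonoidAlgebra.induction_linear with
  | zero => exact zero
  | add x y hx hy => exact add x y hx hy
  | single g c => rw [single_eq_smul_gl]; exact smul _ _ (gl g)

/-- two linear maps agreeing on group elements agree -/
lemma GA.linext {V : Type*} [AddCommMonoid V] [Module ℂ V] (f g : GA Γ →ₗ[ℂ] V)
    (h : ∀ x, f (gl x) = g (gl x)) : f = g := by
  refine LinearMap.ext fun a => ?_
  induction a using GA.ind with
  | zero => simp
  | add x y hx hy => simp [hx, hy]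
  | smul c x hx => simp [hx]
  | gl g => exact h g

/-- the canonical trace -/
def tr : GA Γ →ₗ[ℂ] ℂ where
  toFun a := a.coeff 1
  map_add' := by simp
  map_smul' := by simp

lemma tr_gl [DecidableEq Γ] (g : Γ) : tr (gl g) = if g = 1 then 1 else 0 := by
  simp [tr, gl, Finsupp.single_apply]

lemma tr_one : tr (1 : GA Γ) = 1 := by classical rw [← gl_one, tr_gl]; simp

lemma tr_mul_comm (a b : GA Γ) : tr (a * b) = tr (b * a) := by
  classical
  induction a using GA.ind with
  | zero => simp
  | add x y hx hy => simp [hx, hy, add_mul, mul_add]
  | smul c x hx => simp [hx]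
  | gl g =>
  induction b using GA.ind with
  | zero => simp
  | add x y hx hy => simp [hx, hy, add_mul, mul_add]
  | smul c x hx => simp [hx]
  | gl h =>
  rw [gl_mul, gl_mul, tr_gl, tr_gl]
  congr 1
  rw [mul_eq_one_iff_eq_inv, eq_inv_iff_mul_eq_one, eq_iff_iff]
  constructor
  · intro h1; rw [mul_eq_one_iff_eq_inv] at *; rw [h1, inv_inv]
  · intro h1; rw [mul_eq_one_iff_eq_inv] at *; rw [h1, inv_inv]

/-- `tr (b* a)` is the inner product `∑ conj (b g) a g` -/
lemma tr_star_mul (b a : GA Γ) :
    tr (star b * a) = b.coeff.sum fun g c => (starRingEnd ℂ c) * a.coeff g := by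
  classical
  induction b using MonoidAlgebra.induction_linear with
  | zero => simp
  | add x y hx hy =>
    rw [star_add, add_mul, map_add, hx, hy, coeff_add, Finsupp.sum_add_index']
    · intro g; simp
    · intro g c d; simp [add_mul]
  | single g c =>
    rw [star_single, coeff_single, Finsupp.sum_single_index (by simp)]
    induction a using MonoidAlgebra.induction_linear with
    | zero => simp
    | add x y hx hy => rw [mul_add, map_add, hx, hy, coeff_add, Finsupp.add_apply, mul_add]
    | single h d =>
      rw [single_mul_single]
      simp only [tr, LinearMap.coe_mk, AddHom.coe_mk, coeff_single, Finsupp.single_apply]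
      have : (g⁻¹ * h = 1) ↔ (h = g) := by rw [inv_mul_eq_one, eq_comm]
      simp only [this]
      split_ifs <;> simp

lemma tr_star_self_re (a : GA Γ) : (tr (star a * a)).re = ∑ g ∈ a.coeff.support, ‖a.coeff g‖ ^ 2 := by
  rw [tr_star_mul, Finsupp.sum, Complex.re_sum]
  refine Finset.sum_congr rfl fun g _ => ?_
  rw [← Complex.normSq_eq_conj_mul_self, Complex.ofReal_re, Complex.normSq_eq_norm_sq]

lemma tr_star_self_im (a : GA Γ) : (tr (star a * a)).im = 0 := by
  rw [tr_star_mul, Finsupp.sum, Complex.im_sum]
  refine Finset.sum_eq_zero fun g _ => ?_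
  rw [← Complex.normSq_eq_conj_mul_self, Complex.ofReal_im]

end Star

end Pool.Agent.MP_d87fde_al
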