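import Mathlib

/-!
# Compact matrix quantum groups of Kac type, coamenability and diagonal tori

Definitions used in the hand-in for the problem `MP_d87fde_al`.

A closed subgroup `G` of `U_N^+` is encoded by its dense Hopf `*`-algebra `Pol(G)`, the
`*`-algebra generated inside `C(G)` by the entries `u i j` of the fundamental unitary.
-/

open scoped TensorProduct ENNReal

noncomputable section

namespace Pool.Agent.MP_d87fde_al

section Algebras

variable {A : Type} [Ring A] [Algebra ℂ A] {N : ℕ}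

/-- The map `id ⊗ h : A ⊗ A → A`. -/
def idTensor (h : A →ₗ[ℂ] ℂ) (t : A ⊗[ℂ] A) : A := TensorProduct.rid ℂ A (h.lTensor A t)

/-- The map `h ⊗ id : A ⊗ A → A`. -/
def tensorId (h : A →ₗ[ℂ] ℂ) (t : A ⊗[ℂ] A) : A := TensorProduct.lid ℂ A (h.rTensor A t)

/-- The entries of `v = Q u Q*`. -/
def conjU (u : Matrix (Fin N) (Fin N) A) (Q : Matrix (Fin N) (Fin N) ℂ) (i j : Fin N) : A :=
  ∑ k, ∑ l, (Q i k * star (Q j l)) • u k l

/-- The relations `v i j = 0` for `i ≠ j`, where `v = Q u Q*`. -/
def offDiagRel (u : Matrix (Fin N) (Fin N) A) (Q : Matrix (Fin N) (Fin N) ℂ) (a b : A) : Prop :=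
  ∃ i j, i ≠ j ∧ a = conjU u Q i j ∧ b = 0

/-- The discrete group `Γ_Q`: the group generated by the images `g i` of the diagonal entries
`v i i` of `v = Q u Q*` in the quotient `RingQuot (offDiagRel u Q)` of `A = Pol(G)` by the two-sided
ideal generated by the `v i j` with `i ≠ j` (this quotient is the group algebra of `Γ_Q`). -/
def Gam (u : Matrix (Fin N) (Fin N) A) (Q : Matrix (Fin N) (Fin N) ℂ) :
    Subgroup (RingQuot (offDiagRel u Q))ˣ :=
  Subgroup.closure
    {g | ∃ i, (g : RingQuot (offDiagRel u Q)) =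
      RingQuot.mkAlgHom ℂ (offDiagRel u Q) (conjU u Q i i)}

end Algebras

section StarAlgebras

variable {A : Type} [Ring A] [StarRing A] [Algebra ℂ A] {N : ℕ}

/-- A `C*`-seminorm on a complex `*`-algebra `A`. -/
structure IsCStarSeminorm (p : A → ℝ) : Prop where
  nonneg : ∀ a, 0 ≤ p a
  add_le : ∀ a b, p (a + b) ≤ p a + p b
  smul : ∀ (c : ℂ) (a : A), p (c • a) = ‖c‖ * p a
  mul_le : ∀ a b, p (a * b) ≤ p a * p b
  star_mul_self : ∀ a, p (star a * a) = p a ^ 2

/-- The norm of `C_max(G)`, on `A = Pol(G)`: the largest `C*`-seminorm. -/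
def maxNorm (a : A) : ℝ≥0∞ :=
  ⨆ (p : A → ℝ) (_ : IsCStarSeminorm p), ENNReal.ofReal (p a)

/-- The norm of `C_min(G)`, on `A = Pol(G)`: the operator norm of the left multiplication by `a` on
the Hilbert space `L²(G)` of the Haar state `h`, in which `‖b‖² = h (b* b)`. -/
def minNorm (h : A →ₗ[ℂ] ℂ) (a : A) : ℝ≥0∞ :=
  ⨆ (b : A) (_ : (h (star b * b)).re ≤ 1),
    ENNReal.ofReal (Real.sqrt (h (star (a * b) * (a * b))).re)

/-- A counit for the matrix `u`: a `*`-homomorphism `ε : A → ℂ` such that `ε (u i j) = δ i j`. -/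
structure Counit (u : Matrix (Fin N) (Fin N) A) where
  toHom : A →⋆ₐ[ℂ] ℂ
  apply_u : ∀ i j, toHom (u i j) = if i = j then 1 else 0

/-- An antipode for the matrix `u`: a `*`-homomorphism `S` from `A` to the opposite algebra such
that `S (u i j) = (u j i)*`. -/
structure Antipode (u : Matrix (Fin N) (Fin N) A) where
  toHom : A →⋆ₐ[ℂ] Aᵐᵒᵖ
  apply_u : ∀ i j, toHom (u i j) = MulOpposite.op (star (u j i))

variable [StarModule ℂ A]

/-- A comultiplication for the matrix `u`: a `*`-homomorphism `Δ : A → A ⊗ A` such that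
`Δ (u i j) = ∑ k, u i k ⊗ u k j`. -/
structure Comultiplication (u : Matrix (Fin N) (Fin N) A) where
  toHom : A →⋆ₐ[ℂ] A ⊗[ℂ] A
  apply_u : ∀ i j, toHom (u i j) = ∑ k, u i k ⊗ₜ[ℂ] u k j

/-- `A` is the dense Hopf `*`-algebra `Pol(G)` of a closed subgroup `G` of `U_N^+` with fundamental
representation `u`. -/
structure PolStructure (u : Matrix (Fin N) (Fin N) A) where
  /-- `A` embeds in a `C*`-algebra: the `C*`-seminorms separate its points -/
  separating : ∀ a : A, a ≠ 0 → ∃ p : A → ℝ, IsCStarSeminorm p ∧ p a ≠ 0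
  /-- the entries of `u` generate the `*`-algebra `A` -/
  generates : StarAlgebra.adjoin ℂ (Set.range fun ij : Fin N × Fin N => u ij.1 ij.2) = ⊤
  /-- `u* u = 1` -/
  star_u_mul_u : ∀ i j, ∑ k, star (u k i) * u k j = if i = j then 1 else 0
  /-- `u u* = 1` -/
  u_mul_star_u : ∀ i j, ∑ k, u i k * star (u j k) = if i = j then 1 else 0
  /-- the comultiplication `Δ` -/
  comul : Comultiplication u
  /-- the counit `ε` -/
  counit : Counit u
  /-- the antipode `S` -/
  antipode : Antipode u

/-- The Haar state: the bi-invariant state `h` on `A = Pol(G)`. -/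
structure IsHaarState {u : Matrix (Fin N) (Fin N) A} (Δ : Comultiplication u) (h : A →ₗ[ℂ] ℂ) :
    Prop where
  map_one : h 1 = 1
  nonneg : ∀ a : A, 0 ≤ (h (star a * a)).re ∧ (h (star a * a)).im = 0
  /-- `(id ⊗ h) Δ(a) = h(a) 1` -/
  left_inv : ∀ a : A, idTensor h (Δ.toHom a) = h a • (1 : A)
  /-- `(h ⊗ id) Δ(a) = h(a) 1` -/
  right_inv : ∀ a : A, tensorId h (Δ.toHom a) = h a • (1 : A)

/-- `G` is coamenable: the canonical map `C_max(G) → C_min(G)` is an isomorphism, i.e. the maximal
and the minimal norms agree on `Pol(G)`. -/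
def IsCoamenable {u : Matrix (Fin N) (Fin N) A} (Δ : Comultiplication u) : Prop :=
  ∃ h : A →ₗ[ℂ] ℂ, IsHaarState Δ h ∧ ∀ a : A, maxNorm a = minNorm h a

end StarAlgebras

/-- A compact matrix quantum group of Kac type, that is a closed subgroup `G ⊂ U_N^+`, given by its
dense Hopf `*`-algebra `Pol(G)` (the `*`-subalgebra of `C(G)` generated by the entries of the
fundamental representation `u`). -/
structure CompactMatrixQuantumGroup (N : ℕ) where
  /-- the `*`-algebra `Pol(G)` -/
  Pol : Type
  [instRing : Ring Pol]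
  [instStarRing : StarRing Pol]
  [instAlgebra : Algebra ℂ Pol]
  [instStarModule : StarModule ℂ Pol]
  /-- the fundamental representation -/
  u : Matrix (Fin N) (Fin N) Pol
  /-- the Hopf `*`-algebra structure -/
  str : PolStructure u

attribute [instance] CompactMatrixQuantumGroup.instRing CompactMatrixQuantumGroup.instStarRing
  CompactMatrixQuantumGroup.instAlgebra CompactMatrixQuantumGroup.instStarModule

/-- Amenability of a discrete group: there is a left-invariant finitely additive probability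
measure defined on all its subsets. -/
def IsAmenable (Γ : Type) [Group Γ] : Prop :=
  ∃ m : Set Γ → ℝ, (∀ S, 0 ≤ m S) ∧ m Set.univ = 1 ∧
    (∀ S T, Disjoint S T → m (S ∪ T) = m S + m T) ∧ ∀ (g : Γ) (S : Set Γ), m ((fun x => g * x) '' S) = m S

end Pool.Agent.MP_d87fde_al
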