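import Mathlib
import Pool.Agent.Lib.MP_d87fde_al.Defs
import Pool.Agent.Lib.MP_d87fde_al.Alg

open scoped TensorProduct ENNReal

noncomputable section

namespace Pool.Agent.MP_d87fde_al

section Norm

variable {Γ : Type} [Group Γ]

lemma tr_star (a : GA Γ) : tr (star a) = starRingEnd ℂ (tr a) := by
  induction a using GA.ind with
  | zero => simp
  | add x y hx hy => simp [hx, hy]
  | smul c x hx => simp [hx]
  | gl g =>
    classical
    rw [star_gl, tr_gl, tr_gl]
    by_cases h : g = 1 <;> simp [h]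

/-- the inner product `⟨a, b⟩ = tr (a* b)` -/
@[instance_reducible]
def core (Γ : Type) [Group Γ] : InnerProductSpace.Core ℂ (GA Γ) where
  inner a b := tr (star a * b)
  conj_inner_symm a b := by
    rw [← tr_star]; simp
  re_inner_nonneg a := by
    change 0 ≤ (tr (star a * a)).re
    rw [tr_star_self_re]
    exact Finset.sum_nonneg fun _ _ => by positivity
  add_left a b c := by simp [add_mul]
  smul_left a b c := by simp
  definite a h := by
    have h1 : (tr (star a * a)).re = 0 := by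
      have : tr (star a * a) = 0 := h
      rw [this]; simp
    rw [tr_star_self_re, Finset.sum_eq_zero_iff_of_nonneg (fun _ _ => by positivity)] at h1
    ext g
    by_cases hg : g ∈ a.coeff.support
    · have := h1 g hg
      simpa using this
    · simpa using hg

/-- The group algebra as a pre-Hilbert space. -/
def E (Γ : Type) [Group Γ] : Type := GA Γ

instance : NormedAddCommGroup (E Γ) := (core Γ).toNormedAddCommGroup
instance : InnerProductSpace ℂ (E Γ) := InnerProductSpace.ofCore (core Γ).toCore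

/-- the identity map -/
def toE (a : GA Γ) : E Γ := a

/-- the identity map -/
def ofE (a : E Γ) : GA Γ := a

lemma toE_add (a b : GA Γ) : toE (a + b) = toE a + toE b := rfl
lemma toE_smul (c : ℂ) (a : GA Γ) : toE (c • a) = c • toE a := rfl
lemma toE_zero : toE (0 : GA Γ) = 0 := rfl

lemma inner_def' (a b : GA Γ) : inner ℂ (toE a) (toE b) = tr (star a * b) := rfl

lemma nsq (a : GA Γ) : ‖toE a‖ ^ 2 = (tr (star a * a)).re := by
  have := @inner_self_eq_norm_sq ℂ (E Γ) _ _ _ (toE a)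
  rw [← this]; rfl

lemma norm_gl_mul (g : Γ) (b : GA Γ) : ‖toE (gl g * b)‖ = ‖toE b‖ := by
  have h : ‖toE (gl g * b)‖ ^ 2 = ‖toE b‖ ^ 2 := by
    rw [nsq, nsq, star_mul, star_gl]
    have : star b * gl g⁻¹ * (gl g * b) = star b * (gl g⁻¹ * gl g) * b := by noncomm_ring
    rw [this, gl_mul]; simp [gl_one]
  exact (sq_eq_sq₀ (norm_nonneg _) (norm_nonneg _)).1 h

lemma exists_bound (a : GA Γ) : ∃ C, ∀ b : GA Γ, ‖toE (a * b)‖ ≤ C * ‖toE b‖ := by
  induction a using GA.ind with
  | zero => exact ⟨0, fun b => by simp [toE_zero]⟩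
  | add x y hx hy =>
    obtain ⟨C, hC⟩ := hx
    obtain ⟨D, hD⟩ := hy
    refine ⟨C + D, fun b => ?_⟩
    have h1 := hC b
    have h2 := hD b
    rw [add_mul, add_mul, toE_add]
    exact (norm_add_le _ _).trans (add_le_add h1 h2)
  | smul c x hx =>
    obtain ⟨C, hC⟩ := hx
    refine ⟨‖c‖ * C, fun b => ?_⟩
    have h1 := hC b
    rw [smul_mul_assoc, toE_smul, norm_smul, mul_assoc]
    exact mul_le_mul_of_nonneg_left h1 (norm_nonneg _)
  | gl g => exact ⟨1, fun b => by simp [norm_gl_mul]⟩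

/-- left multiplication as a bounded operator -/
def T (a : GA Γ) : E Γ →L[ℂ] E Γ :=
  LinearMap.mkContinuousOfExistsBound
    { toFun := fun b => toE (a * ofE b)
      map_add' := fun b c => mul_add (a : GA Γ) (ofE b) (ofE c)
      map_smul' := fun c b => mul_smul_comm c (a : GA Γ) (ofE b) } (exists_bound a)

lemma T_apply (a b : GA Γ) : T a (toE b) = toE (a * b) := rfl

lemma T_sq_le (a : GA Γ) : ‖T a‖ ^ 2 ≤ ‖T (star a * a)‖ := by
  have h : ‖T a‖ ≤ Real.sqrt ‖T (star a * a)‖ := by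
    refine ContinuousLinearMap.opNorm_le_bound _ (Real.sqrt_nonneg _) fun b' => ?_
    obtain ⟨b, rfl⟩ : ∃ b, toE b = b' := ⟨b', rfl⟩
    have h1 : ‖toE (a * b)‖ ^ 2 = (inner ℂ (toE b) (T (star a * a) (toE b)) : ℂ).re := by
      rw [nsq, T_apply, inner_def']; simp [mul_assoc]
    have h2 : ‖toE (a * b)‖ ^ 2 ≤ ‖toE b‖ * (‖T (star a * a)‖ * ‖toE b‖) := by
      rw [h1]
      refine (Complex.re_le_norm _).trans ((norm_inner_le_norm _ _).trans ?_)
      exact mul_le_mul_of_nonneg_left (ContinuousLinearMap.le_opNorm _ _) (norm_nonneg _)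
    rw [T_apply]
    have h3 : ‖toE (a * b)‖ ^ 2 ≤ (Real.sqrt ‖T (star a * a)‖ * ‖toE b‖) ^ 2 := by
      rw [mul_pow, Real.sq_sqrt (norm_nonneg _)]; nlinarith
    exact (abs_le_of_sq_le_sq' h3 (by positivity)).2
  calc ‖T a‖ ^ 2 ≤ (Real.sqrt ‖T (star a * a)‖) ^ 2 := by gcongr
    _ = ‖T (star a * a)‖ := Real.sq_sqrt (norm_nonneg _)

lemma T_mul (a b : GA Γ) : T (a * b) = (T a).comp (T b) := by
  refine ContinuousLinearMap.ext fun c' => ?_
  obtain ⟨c, rfl⟩ : ∃ c, toE c = c' := ⟨c', rfl⟩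
  rw [ContinuousLinearMap.comp_apply, T_apply, T_apply, T_apply, mul_assoc]

lemma T_star_le (a : GA Γ) : ‖T (star a)‖ ≤ ‖T a‖ := by
  have h1 := T_sq_le (star a)
  rw [star_star, T_mul] at h1
  have h2 : ‖T (star a)‖ ^ 2 ≤ ‖T a‖ * ‖T (star a)‖ := h1.trans (ContinuousLinearMap.opNorm_comp_le _ _)
  by_cases h : ‖T (star a)‖ = 0
  · rw [h]; exact norm_nonneg _
  · have : 0 < ‖T (star a)‖ := lt_of_le_of_ne (norm_nonneg _) (Ne.symm h)
    nlinarith

lemma isCStarSeminorm_T : IsCStarSeminorm (fun a : GA Γ => ‖T a‖) where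
  nonneg a := norm_nonneg _
  add_le a b := by
    have : T (a + b) = T a + T b := by
      refine ContinuousLinearMap.ext fun c' => ?_
      obtain ⟨c, rfl⟩ : ∃ c, toE c = c' := ⟨c', rfl⟩
      rw [add_apply, T_apply, T_apply, T_apply, add_mul, toE_add]
    rw [this]; exact norm_add_le _ _
  smul c a := by
    have : T (c • a) = c • T a := by
      refine ContinuousLinearMap.ext fun c' => ?_
      obtain ⟨c, rfl⟩ : ∃ c, toE c = c' := ⟨c', rfl⟩
      rw [smul_apply, T_apply, T_apply, smul_mul_assoc, toE_smul]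
    rw [this]; exact norm_smul _ _
  mul_le a b := by rw [T_mul]; exact ContinuousLinearMap.opNorm_comp_le _ _
  star_mul_self a := by
    refine le_antisymm ?_ (T_sq_le a)
    rw [T_mul]
    refine (ContinuousLinearMap.opNorm_comp_le _ _).trans ?_
    rw [sq]
    exact mul_le_mul_of_nonneg_right (T_star_le a) (norm_nonneg _)

lemma T_ne_zero {a : GA Γ} (h : a ≠ 0) : ‖T a‖ ≠ 0 := by
  intro h1
  apply h
  have := ContinuousLinearMap.le_opNorm (T a) (toE 1)
  rw [h1, zero_mul, T_apply, mul_one] at this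
  exact norm_le_zero_iff.1 this

lemma separating (a : GA Γ) (h : a ≠ 0) : ∃ p : GA Γ → ℝ, IsCStarSeminorm p ∧ p a ≠ 0 :=
  ⟨_, isCStarSeminorm_T, T_ne_zero h⟩

end Norm

end Pool.Agent.MP_d87fde_al
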