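import Mathlib
import Pool.Agent.Lib.MP_d87fde_al.Alg

open scoped TensorProduct

noncomputable section

namespace Pool.Agent.MP_d87fde_al

section Twist

variable {Γ : Type} [Group Γ] (x y : Γ)

/-- the projections onto the eigenspaces of `y` -/
def f (j : Fin 2) : GA Γ := (2⁻¹ : ℂ) • (1 + (-1 : ℂ) ^ (j : ℕ) • gl y)

/-- the two-dimensional projective corepresentation -/
def W (p s : Fin 2) : GA Γ := gl x ^ (s : ℕ) * f y (p + s)

/-- the twist -/
def J : GA Γ ⊗[ℂ] GA Γ := 1 ⊗ₜ f y 0 + gl x ⊗ₜ f y 1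

/-- the untwisted comultiplication -/
def com0 : GA Γ →ₐ[ℂ] GA Γ ⊗[ℂ] GA Γ :=
  MonoidAlgebra.lift ℂ _ Γ
    { toFun := fun g => gl g ⊗ₜ gl g
      map_one' := by simp [gl_one, Algebra.TensorProduct.one_def]
      map_mul' := fun g h => by simp [gl_mul] }

lemma com0_gl (g : Γ) : com0 (gl g) = gl g ⊗ₜ[ℂ] gl g := by
  simp [com0, gl]

lemma com0_star (a : GA Γ) : com0 (star a) = star (com0 a) := by
  induction a using GA.ind with
  | zero => simp
  | add x y hx hy => simp [hx, hy]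
  | smul c x hx => simp [hx]
  | gl g => simp [star_gl, com0_gl]

variable {x y} (hx : x * x = 1) (hy : y * y = 1) (hxy : x * y = y * x)

include hx in
lemma X_sq : gl x * gl x = (1 : GA Γ) := by rw [gl_mul, hx, gl_one]

include hy in
lemma f_mul_f (i j : Fin 2) : f y i * f y j = if i = j then f y i else 0 := by
  have hY : gl y * gl y = (1 : GA Γ) := by rw [gl_mul, hy, gl_one]
  fin_cases i <;> fin_cases j <;> simp [f, add_mul, mul_add, hY, smul_smul] <;> module

lemma f_add : f y 0 + f y 1 = (1 : GA Γ) := by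
  simp [f]; module

include hxy in
lemma X_f (j : Fin 2) : gl x * f y j = f y j * gl x := by
  simp [f, mul_add, add_mul, gl_mul, hxy]

include hx in
lemma star_X : star (gl x) = gl x := by
  rw [star_gl]; congr 1; exact inv_eq_of_mul_eq_one_left hx

include hy in
lemma star_f (j : Fin 2) : star (f y j) = f y j := by
  have := star_X hy
  fin_cases j <;> simp [f, this]

lemma star_J (hx : x * x = 1) (hy : y * y = 1) : star (J x y) = J x y := by
  simp [J, star_X hx, star_f hy]

lemma J_mul_J (hx : x * x = 1) (hy : y * y = 1) : J x y * J x y = 1 := by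
  simp [J, mul_add, add_mul, f_mul_f hy, X_sq hx, ← TensorProduct.tmul_add, f_add,
    Algebra.TensorProduct.one_def]

lemma com0_f (j : Fin 2) :
    com0 (f y j) = f y 0 ⊗ₜ[ℂ] f y j + f y 1 ⊗ₜ[ℂ] f y (1 + j) := by
  have e0 : f y 0 = (2⁻¹ : ℂ) • (1 : GA Γ) + (2⁻¹ : ℂ) • gl y := by simp [f]
  have e1 : f y 1 = (2⁻¹ : ℂ) • (1 : GA Γ) - (2⁻¹ : ℂ) • gl y := by simp [f]; module
  have h1 : com0 (f y 0) = (2⁻¹ : ℂ) • ((1 : GA Γ) ⊗ₜ[ℂ] (1 : GA Γ))
      + (2⁻¹ : ℂ) • (gl y ⊗ₜ[ℂ] gl y) := by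
    rw [e0]; simp [com0_gl, Algebra.TensorProduct.one_def]
  have h2 : com0 (f y 1) = (2⁻¹ : ℂ) • ((1 : GA Γ) ⊗ₜ[ℂ] (1 : GA Γ))
      - (2⁻¹ : ℂ) • (gl y ⊗ₜ[ℂ] gl y) := by
    rw [e1]; simp [com0_gl, Algebra.TensorProduct.one_def]
  fin_cases j
  · change com0 (f y 0) = f y 0 ⊗ₜ[ℂ] f y 0 + f y 1 ⊗ₜ[ℂ] f y 1
    rw [h1, e0, e1]
    simp only [TensorProduct.add_tmul, TensorProduct.tmul_add, TensorProduct.sub_tmul,
      TensorProduct.tmul_sub, ← TensorProduct.smul_tmul', TensorProduct.tmul_smul]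
    module
  · change com0 (f y 1) = f y 0 ⊗ₜ[ℂ] f y 1 + f y 1 ⊗ₜ[ℂ] f y 0
    rw [h2, e0, e1]
    simp only [TensorProduct.add_tmul, TensorProduct.tmul_add, TensorProduct.sub_tmul,
      TensorProduct.tmul_sub, ← TensorProduct.smul_tmul', TensorProduct.tmul_smul]
    module

/-- key identity for the twist -/
lemma J_mul_com0_W (hx : x * x = 1) (hy : y * y = 1) (hxy : x * y = y * x) (p s : Fin 2) :
    J x y * com0 (W x y p s) = ∑ q, W x y p q ⊗ₜ[ℂ] W x y q s := by
  have h1 := X_f (x := x) (y := y) hxy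
  have h2 := X_sq (x := x) hx
  have h3 : ∀ (a : GA Γ), gl x * (gl x * a) = a := fun a => by rw [← mul_assoc, h2, one_mul]
  have h4 : ∀ (j : Fin 2) (a : GA Γ), f y j * (gl x * a) = gl x * (f y j * a) := fun j a => by
    rw [← mul_assoc, ← h1, mul_assoc]
  fin_cases p <;> fin_cases s <;>
  simp [J, W, com0_f, com0_gl, mul_add, add_mul, f_mul_f hy, h3, h4,
    Fin.sum_univ_two, add_comm]

lemma com0_W_mul_J (hx : x * x = 1) (hy : y * y = 1) (hxy : x * y = y * x) (p s : Fin 2) :
    com0 (W x y p s) * J x y = ∑ q, W x y p q ⊗ₜ[ℂ] W x y q s := by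
  have h1 := X_f (x := x) (y := y) hxy
  have h2 := X_sq (x := x) hx
  have h3 : ∀ (a : GA Γ), gl x * (gl x * a) = a := fun a => by rw [← mul_assoc, h2, one_mul]
  fin_cases p <;> fin_cases s <;>
  simp [J, W, com0_f, com0_gl, mul_add, add_mul, f_mul_f hy, ← h1, h3, mul_assoc,
    Fin.sum_univ_two, add_comm]

lemma W_mul_star (hx : x * x = 1) (hy : y * y = 1) (hxy : x * y = y * x) (p q : Fin 2) :
    ∑ s, W x y p s * star (W x y q s) = if p = q then 1 else 0 := by
  have h1 := X_f (x := x) (y := y) hxy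
  have h2 := X_sq (x := x) hx
  have h3 : ∀ (a : GA Γ), gl x * (gl x * a) = a := fun a => by rw [← mul_assoc, h2, one_mul]
  have h5 : ∀ (i j : Fin 2) (a : GA Γ), f y i * (f y j * a) = if i = j then f y i * a else 0 :=
    fun i j a => by rw [← mul_assoc, f_mul_f hy]; split_ifs <;> simp
  have h6 : f y 0 + f y 1 = (1 : GA Γ) := f_add
  have h7 : f y 1 + f y 0 = (1 : GA Γ) := by rw [add_comm]; exact f_add
  fin_cases p <;> fin_cases q <;>
  simp [W, star_X hx, star_f hy, ← h1, h3, h5, h6, h7, mul_assoc, Fin.sum_univ_two]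

lemma star_mul_W (hx : x * x = 1) (hy : y * y = 1) (hxy : x * y = y * x) (s t : Fin 2) :
    ∑ p, star (W x y p s) * W x y p t = if s = t then 1 else 0 := by
  have h1 := X_f (x := x) (y := y) hxy
  have h2 := X_sq (x := x) hx
  have h3 : ∀ (a : GA Γ), gl x * (gl x * a) = a := fun a => by rw [← mul_assoc, h2, one_mul]
  have h5 : ∀ (i j : Fin 2) (a : GA Γ), f y i * (f y j * a) = if i = j then f y i * a else 0 :=
    fun i j a => by rw [← mul_assoc, f_mul_f hy]; split_ifs <;> simp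
  have h6 : f y 0 + f y 1 = (1 : GA Γ) := f_add
  have h7 : f y 1 + f y 0 = (1 : GA Γ) := by rw [add_comm]; exact f_add
  have h4 : ∀ (j : Fin 2) (a : GA Γ), f y j * (gl x * a) = gl x * (f y j * a) := fun j a => by
    rw [← mul_assoc, ← h1, mul_assoc]
  fin_cases s <;> fin_cases t <;>
  simp [W, star_X hx, star_f hy, f_mul_f hy, ← h1, h3, h4, h6, h7, mul_assoc, Fin.sum_univ_two]

/-- the coefficient `W p s * g * W p' s'` of the four-dimensional corepresentation attached to `g` -/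
def blk (x y g : Γ) (p s : Fin 2 × Fin 2) : GA Γ := W x y p.1 s.1 * gl g * W x y p.2 s.2

/-- the twisted comultiplication -/
def comT (hx : x * x = 1) (hy : y * y = 1) : GA Γ →⋆ₐ[ℂ] GA Γ ⊗[ℂ] GA Γ where
  toFun a := J x y * com0 a * J x y
  map_one' := by simp [J_mul_J hx hy]
  map_mul' a b := by
    have : J x y * com0 a * J x y * (J x y * com0 b * J x y)
        = J x y * com0 a * (J x y * J x y) * com0 b * J x y := by noncomm_ring
    rw [this, J_mul_J hx hy]; simp [mul_assoc]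
  map_zero' := by simp
  map_add' a b := by simp [mul_add, add_mul]
  commutes' c := by
    simp only [AlgHomClass.commutes]
    rw [← Algebra.commutes, mul_assoc, J_mul_J hx hy, mul_one]
  map_star' a := by simp [star_J hx hy, com0_star, mul_assoc]

lemma comT_apply (hx : x * x = 1) (hy : y * y = 1) (a : GA Γ) :
    comT hx hy a = J x y * com0 a * J x y := rfl

lemma comT_blk (hx : x * x = 1) (hy : y * y = 1) (hxy : x * y = y * x) (g : Γ)
    (p s : Fin 2 × Fin 2) :
    comT hx hy (blk x y g p s) = ∑ q, blk x y g p q ⊗ₜ[ℂ] blk x y g q s := by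
  rw [comT_apply, blk, map_mul, map_mul]
  have : J x y * (com0 (W x y p.1 s.1) * com0 (gl g) * com0 (W x y p.2 s.2)) * J x y
    = (J x y * com0 (W x y p.1 s.1)) * com0 (gl g) * (com0 (W x y p.2 s.2) * J x y) := by
    noncomm_ring
  rw [this, J_mul_com0_W hx hy hxy, com0_W_mul_J hx hy hxy, com0_gl, Fintype.sum_prod_type]
  simp only [Finset.sum_mul, Finset.mul_sum, Algebra.TensorProduct.tmul_mul_tmul, blk]
  rw [Finset.sum_comm]

lemma blk_mul_star (hx : x * x = 1) (hy : y * y = 1) (hxy : x * y = y * x) (g : Γ)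
    (p q : Fin 2 × Fin 2) :
    ∑ s, blk x y g p s * star (blk x y g q s) = if p = q then 1 else 0 := by
  have h : ∀ s : Fin 2 × Fin 2, blk x y g p s * star (blk x y g q s) =
      W x y p.1 s.1 * (gl g * (W x y p.2 s.2 * star (W x y q.2 s.2)) * gl g⁻¹) *
        star (W x y q.1 s.1) := by
    intro s; simp [blk, star_gl]; noncomm_ring
  simp only [h]
  rw [Fintype.sum_prod_type]
  simp only [← Finset.sum_mul, ← Finset.mul_sum, W_mul_star hx hy hxy p.2 q.2]
  by_cases h2 : p.2 = q.2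
  · simp [h2, gl_mul, gl_one, W_mul_star hx hy hxy p.1 q.1, Prod.ext_iff]
  · simp [h2, Prod.ext_iff]

lemma star_mul_blk (hx : x * x = 1) (hy : y * y = 1) (hxy : x * y = y * x) (g : Γ)
    (s t : Fin 2 × Fin 2) :
    ∑ p, star (blk x y g p s) * blk x y g p t = if s = t then 1 else 0 := by
  have h : ∀ p : Fin 2 × Fin 2, star (blk x y g p s) * blk x y g p t =
      star (W x y p.2 s.2) * (gl g⁻¹ * (star (W x y p.1 s.1) * W x y p.1 t.1) * gl g) *
        W x y p.2 t.2 := by
    intro s; simp [blk, star_gl]; noncomm_ring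
  simp only [h]
  rw [Fintype.sum_prod_type, Finset.sum_comm]
  simp only [← Finset.sum_mul, ← Finset.mul_sum, star_mul_W hx hy hxy s.1 t.1]
  by_cases h2 : s.1 = t.1
  · simp [h2, gl_mul, gl_one, star_mul_W hx hy hxy s.2 t.2, Prod.ext_iff]
  · simp [h2, Prod.ext_iff]

/-- the counit -/
def eps : GA Γ →⋆ₐ[ℂ] ℂ :=
  { MonoidAlgebra.lift ℂ ℂ Γ (1 : Γ →* ℂ) with
    map_star' := fun a => by
      change MonoidAlgebra.lift ℂ ℂ Γ (1 : Γ →* ℂ) (star a) = star (MonoidAlgebra.lift ℂ ℂ Γ (1 : Γ →* ℂ) a)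
      induction a using GA.ind with
      | zero => simp
      | add x y hx hy => simp only [star_add, map_add, hx, hy]
      | smul c x hx => simp only [star_smul, map_smul, hx]
      | gl g => rw [star_gl]; simp [gl] }

lemma eps_gl (g : Γ) : eps (gl g) = 1 := by
  change MonoidAlgebra.lift ℂ ℂ Γ (1 : Γ →* ℂ) (gl g) = 1
  simp [gl]

lemma eps_W (p s : Fin 2) : eps (W x y p s) = if p = s then 1 else 0 := by
  have h0 : eps (f y 0) = 1 := by simp [f, eps_gl]; norm_num
  have h1 : eps (f y 1) = 0 := by simp [f, eps_gl]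
  fin_cases p <;> fin_cases s <;> simp [W, h0, h1, eps_gl]

lemma eps_blk (g : Γ) (p s : Fin 2 × Fin 2) : eps (blk x y g p s) = if p = s then 1 else 0 := by
  simp only [blk, map_mul, eps_W, eps_gl, Prod.ext_iff]
  split_ifs <;> simp_all

/-- the self-adjoint unitary implementing the twisted antipode -/
def V (x y : Γ) : GA Γ := f y 0 + gl x * f y 1

lemma V_mul_V (hx : x * x = 1) (hy : y * y = 1) (hxy : x * y = y * x) : V x y * V x y = 1 := by
  have h1 := X_f (x := x) (y := y) hxy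
  have h2 := X_sq (x := x) hx
  have h3 : ∀ (a : GA Γ), gl x * (gl x * a) = a := fun a => by rw [← mul_assoc, h2, one_mul]
  have h4 : ∀ (j : Fin 2) (a : GA Γ), f y j * (gl x * a) = gl x * (f y j * a) := fun j a => by
    rw [← mul_assoc, ← h1, mul_assoc]
  have h6 : f y 0 + f y 1 = (1 : GA Γ) := f_add
  simp [V, mul_add, add_mul, f_mul_f hy, ← h1, h3, h4, h6, mul_assoc]

lemma star_V (hx : x * x = 1) (hy : y * y = 1) (hxy : x * y = y * x) :
    star (V x y) = V x y := by
  simp [V, star_X hx, star_f hy, ← X_f hxy]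

/-- the untwisted antipode, `c g ↦ c g⁻¹` -/
def ant0 : GA Γ →ₐ[ℂ] (GA Γ)ᵐᵒᵖ :=
  MonoidAlgebra.lift ℂ _ Γ
    { toFun := fun g => MulOpposite.op (gl g⁻¹)
      map_one' := by simp [gl_one]
      map_mul' := fun g h => by rw [← MulOpposite.op_mul, gl_mul, mul_inv_rev] }

lemma ant0_gl (g : Γ) : ant0 (gl g) = MulOpposite.op (gl g⁻¹) := by
  simp [ant0, gl]

lemma ant0_star (a : GA Γ) : ant0 (star a) = star (ant0 a) := by
  induction a using GA.ind with
  | zero => simp
  | add x y hx hy => simp only [star_add, map_add, hx, hy]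
  | smul c x hx => simp only [star_smul, map_smul, hx]
  | gl g => rw [star_gl, ant0_gl, ant0_gl, ← MulOpposite.op_star, star_gl]

lemma ant0_W (hx : x * x = 1) (hy : y * y = 1) (hxy : x * y = y * x) (p s : Fin 2) :
    ant0 (W x y p s) = MulOpposite.op (W x y p s) := by
  have hx' : x⁻¹ = x := inv_eq_of_mul_eq_one_left hx
  have hy' : y⁻¹ = y := inv_eq_of_mul_eq_one_left hy
  have hf : ∀ j, ant0 (f y j) = MulOpposite.op (f y j) := by
    intro j; simp [f, ant0_gl, hy']
  fin_cases p <;> fin_cases s <;>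
  simp [W, hf, ant0_gl, hx', ← MulOpposite.op_mul, ← X_f hxy]

/-- the twisted antipode -/
def antT (hx : x * x = 1) (hy : y * y = 1) (hxy : x * y = y * x) : GA Γ →⋆ₐ[ℂ] (GA Γ)ᵐᵒᵖ where
  toFun a := MulOpposite.op (V x y) * ant0 a * MulOpposite.op (V x y)
  map_one' := by simp [← MulOpposite.op_mul, V_mul_V hx hy hxy]
  map_mul' a b := by
    have hV : MulOpposite.op (V x y) * MulOpposite.op (V x y) = 1 := by
      simp [← MulOpposite.op_mul, V_mul_V hx hy hxy]
    have : MulOpposite.op (V x y) * ant0 a * MulOpposite.op (V x y) *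
        (MulOpposite.op (V x y) * ant0 b * MulOpposite.op (V x y))
        = MulOpposite.op (V x y) * ant0 a * (MulOpposite.op (V x y) * MulOpposite.op (V x y)) *
          ant0 b * MulOpposite.op (V x y) := by noncomm_ring
    rw [this, hV]; simp [mul_assoc]
  map_zero' := by simp
  map_add' a b := by simp [mul_add, add_mul]
  commutes' c := by
    have hV : MulOpposite.op (V x y) * MulOpposite.op (V x y) = 1 := by
      simp [← MulOpposite.op_mul, V_mul_V hx hy hxy]
    simp only [AlgHomClass.commutes]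
    rw [← Algebra.commutes, mul_assoc, hV, mul_one]
  map_star' a := by
    simp [← MulOpposite.op_star, star_V hx hy hxy, ant0_star, mul_assoc]

lemma antT_apply (hx : x * x = 1) (hy : y * y = 1) (hxy : x * y = y * x) (a : GA Γ) :
    antT hx hy hxy a = MulOpposite.op (V x y) * ant0 a * MulOpposite.op (V x y) := rfl

lemma V_mul_W (hx : x * x = 1) (hy : y * y = 1) (hxy : x * y = y * x) (p s : Fin 2) :
    V x y * W x y p s = star (W x y s p) := by
  have h1 := X_f (x := x) (y := y) hxy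
  have h2 := X_sq (x := x) hx
  have h3 : ∀ (a : GA Γ), gl x * (gl x * a) = a := fun a => by rw [← mul_assoc, h2, one_mul]
  have h4 : ∀ (j : Fin 2) (a : GA Γ), f y j * (gl x * a) = gl x * (f y j * a) := fun j a => by
    rw [← mul_assoc, ← h1, mul_assoc]
  fin_cases p <;> fin_cases s <;>
  simp [V, W, star_X hx, star_f hy, mul_add, add_mul, f_mul_f hy, ← h1, h3, h4, mul_assoc]

lemma W_mul_V (hx : x * x = 1) (hy : y * y = 1) (hxy : x * y = y * x) (p s : Fin 2) :
    W x y p s * V x y = star (W x y s p) := by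
  have h1 := X_f (x := x) (y := y) hxy
  have h2 := X_sq (x := x) hx
  have h3 : ∀ (a : GA Γ), gl x * (gl x * a) = a := fun a => by rw [← mul_assoc, h2, one_mul]
  have h4 : ∀ (j : Fin 2) (a : GA Γ), f y j * (gl x * a) = gl x * (f y j * a) := fun j a => by
    rw [← mul_assoc, ← h1, mul_assoc]
  fin_cases p <;> fin_cases s <;>
  simp [V, W, star_X hx, star_f hy, mul_add, add_mul, f_mul_f hy, ← h1, h3, h4, mul_assoc]

lemma antT_blk (hx : x * x = 1) (hy : y * y = 1) (hxy : x * y = y * x) (g : Γ)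
    (p s : Fin 2 × Fin 2) :
    antT hx hy hxy (blk x y g p s) = MulOpposite.op (star (blk x y g s p)) := by
  rw [antT_apply, blk, map_mul, map_mul, ant0_W hx hy hxy, ant0_W hx hy hxy, ant0_gl]
  simp only [← MulOpposite.op_mul]
  congr 1
  have : V x y * (W x y p.2 s.2 * (gl g⁻¹ * W x y p.1 s.1) * V x y) =
    (V x y * W x y p.2 s.2) * gl g⁻¹ * (W x y p.1 s.1 * V x y) := by noncomm_ring
  rw [V_mul_W hx hy hxy, W_mul_V hx hy hxy] at this
  simpa [blk, star_gl, mul_assoc] using this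

end Twist

end Pool.Agent.MP_d87fde_al
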