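import Mathlib
import Pool.Agent.Lib.MP_d87fde_al.Defs
import Pool.Agent.Lib.MP_d87fde_al.Alg
import Pool.Agent.Lib.MP_d87fde_al.Twist
import Pool.Agent.Lib.MP_d87fde_al.Norm

open scoped TensorProduct ENNReal

noncomputable section

namespace Pool.Agent.MP_d87fde_al

section Gap

variable {Γ : Type} [Group Γ] {H : Type} [Group H] [Fintype H]

/-- average over a finite group -/
def avg (ι : H →* Γ) : GA Γ := ((Fintype.card H : ℂ)⁻¹) • ∑ h, gl (ι h)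

lemma gl_mul_avg (ι : H →* Γ) (h : H) : gl (ι h) * avg ι = avg ι := by
  rw [avg, mul_smul_comm, Finset.mul_sum]
  congr 1
  simp only [gl_mul, ← map_mul]
  exact (Group.mulLeft_bijective h).sum_comp fun k => gl (ι k)

lemma avg_mul_avg (ι : H →* Γ) : avg ι * avg ι = avg ι := by
  conv_lhs => enter [1]; rw [avg]
  rw [smul_mul_assoc, Finset.sum_mul]
  simp only [gl_mul_avg]
  rw [Finset.sum_const, Finset.card_univ, ← Nat.cast_smul_eq_nsmul ℂ, smul_smul,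
    inv_mul_cancel₀ (by exact_mod_cast Fintype.card_ne_zero), one_smul]

lemma star_avg (ι : H →* Γ) : star (avg ι) = avg ι := by
  rw [avg, star_smul, star_sum]
  have h1 : star ((Fintype.card H : ℂ)⁻¹) = (Fintype.card H : ℂ)⁻¹ := by simp
  rw [h1]
  congr 1
  simp only [star_gl, ← map_inv]
  exact Equiv.sum_comp (Equiv.inv H) (fun k => gl (ι k))

lemma eps_avg (ι : H →* Γ) : eps (avg ι) = 1 := by
  rw [avg, map_smul, map_sum]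
  simp [eps_gl]

lemma nsq' (a : GA Γ) {F : Finset Γ} (hF : a.coeff.support ⊆ F) :
    ‖toE a‖ ^ 2 = ∑ g ∈ F, ‖a.coeff g‖ ^ 2 := by
  rw [nsq, tr_star_self_re]
  refine Finset.sum_subset hF fun g _ hg => ?_
  simp [Finsupp.notMem_support_iff.1 hg]

lemma coeff_of_inv {a : GA Γ} {g : Γ} (h : gl g * a = a) (k : Γ) : a.coeff (g * k) = a.coeff k := by
  have h1 : (gl g * a).coeff (g * k) = a.coeff (g * k) := by rw [h]
  rw [← h1]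
  simp [gl, MonoidAlgebra.coeff_single_mul_apply]

open Classical in
/-- mass of an invariant vector on a set with disjoint translates -/
lemma mass_le (ι : H →* Γ) (S : Set Γ) (hS : ∀ h : H, h ≠ 1 → ∀ k ∈ S, ι h * k ∉ S)
    {a : GA Γ} (ha : ∀ h, gl (ι h) * a = a) (F : Finset Γ) :
    (Fintype.card H : ℝ) * ∑ g ∈ F with g ∈ S, ‖a.coeff g‖ ^ 2 ≤ ‖toE a‖ ^ 2 := by
  set A : Finset Γ := (F ∩ a.coeff.support).filter (· ∈ S) with hA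
  have h0 : ∑ g ∈ F with g ∈ S, ‖a.coeff g‖ ^ 2 = ∑ g ∈ A, ‖a.coeff g‖ ^ 2 := by
    symm
    refine Finset.sum_subset ?_ ?_
    · intro g hg; simp only [hA, Finset.mem_filter, Finset.mem_inter] at hg ⊢
      exact ⟨hg.1.1, hg.2⟩
    · intro g hg hg'
      simp only [hA, Finset.mem_filter, Finset.mem_inter, not_and] at hg hg'
      have : g ∉ a.coeff.support := fun h => hg' ⟨hg.1, h⟩ hg.2
      simp [Finsupp.notMem_support_iff.1 this]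
  have h1 : (Fintype.card H : ℝ) * ∑ g ∈ A, ‖a.coeff g‖ ^ 2 =
      ∑ p ∈ (Finset.univ : Finset H) ×ˢ A, ‖a.coeff (ι p.1 * p.2)‖ ^ 2 := by
    rw [Finset.sum_product]
    simp only [coeff_of_inv (ha _)]
    rw [Finset.sum_const, Finset.card_univ, nsmul_eq_mul]
  have hinj : Set.InjOn (fun p : H × Γ => ι p.1 * p.2) ((Finset.univ : Finset H) ×ˢ A : Finset _) := by
    rintro ⟨h, k⟩ hk ⟨h', k'⟩ hk' heq
    simp only [hA, Finset.coe_product, Finset.coe_univ, Set.mem_prod, Set.mem_univ, true_and,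
      Finset.mem_coe, Finset.mem_filter] at hk hk' heq
    have h2 : ι (h'⁻¹ * h) * k = k' := by
      rw [map_mul, mul_assoc, heq, ← mul_assoc, ← map_mul]; simp
    by_cases h3 : h'⁻¹ * h = 1
    · rw [h3] at h2
      have : h = h' := by rw [inv_mul_eq_one] at h3; exact h3.symm
      subst this
      simp at h2
      rw [h2]
    · exact absurd hk'.2 (h2 ▸ hS _ h3 k hk.2)
  rw [h0, h1, nsq' a (Finset.Subset.refl _), ← Finset.sum_image (f := fun g => ‖a.coeff g‖ ^ 2) hinj]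
  refine Finset.sum_le_sum_of_subset_of_nonneg ?_ fun _ _ _ => sq_nonneg _
  intro g hg
  simp only [Finset.mem_image, Finset.mem_product, Finset.mem_univ, true_and, hA,
    Finset.mem_filter, Finset.mem_inter] at hg
  obtain ⟨⟨h, k⟩, ⟨⟨-, hk⟩, -⟩, rfl⟩ := hg
  simp only [Finsupp.mem_support_iff, ne_eq, coeff_of_inv (ha _)] at hk ⊢
  exact hk

lemma norm_avg_mul_le (ι : H →* Γ) (b : GA Γ) : ‖toE (avg ι * b)‖ ≤ ‖toE b‖ := by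
  have h1 : ‖toE (avg ι * b)‖ ^ 2 = (inner ℂ (toE (avg ι * b)) (toE b) : ℂ).re := by
    have : star (avg ι * b) * (avg ι * b) = star (avg ι * b) * b := by
      rw [star_mul, star_avg, mul_assoc, ← mul_assoc (avg ι) (avg ι), avg_mul_avg, mul_assoc]
    rw [nsq, inner_def', this]
  have h2 : ‖toE (avg ι * b)‖ ^ 2 ≤ ‖toE (avg ι * b)‖ * ‖toE b‖ := by
    rw [h1]; exact (Complex.re_le_norm _).trans (norm_inner_le_norm _ _)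
  by_cases h : ‖toE (avg ι * b)‖ = 0
  · rw [h]; exact norm_nonneg _
  · have : 0 < ‖toE (avg ι * b)‖ := lt_of_le_of_ne (norm_nonneg _) (Ne.symm h)
    nlinarith

open Classical in
/-- the key estimate -/
lemma gap (ι₁ ι₂ : H →* Γ) (S₁ S₂ : Set Γ) (hS₁ : ∀ h : H, h ≠ 1 → ∀ k ∈ S₁, ι₁ h * k ∉ S₁)
    (hS₂ : ∀ h : H, h ≠ 1 → ∀ k ∈ S₂, ι₂ h * k ∉ S₂) (hS : ∀ k, k ∈ S₁ ∨ k ∈ S₂)
    (hH : 16 ≤ Fintype.card H) (b : GA Γ) :
    ‖toE (avg ι₁ * avg ι₂ * b)‖ ≤ 2⁻¹ * ‖toE b‖ := by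
  obtain ⟨c₂, hc₂⟩ : ∃ c, c = avg ι₂ * b := ⟨_, rfl⟩
  obtain ⟨c₁, hc₁⟩ : ∃ c, c = avg ι₁ * c₂ := ⟨_, rfl⟩
  have hcc : avg ι₁ * avg ι₂ * b = c₁ := by rw [hc₁, hc₂, mul_assoc]
  rw [hcc]
  have i₁ : ∀ h, gl (ι₁ h) * c₁ = c₁ := fun h => by rw [hc₁, ← mul_assoc, gl_mul_avg]
  have i₂ : ∀ h, gl (ι₂ h) * c₂ = c₂ := fun h => by rw [hc₂, ← mul_assoc, gl_mul_avg]
  obtain ⟨F, hF⟩ : ∃ F, F = c₁.coeff.support ∪ c₂.coeff.support := ⟨_, rfl⟩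
  have hF₁ : c₁.coeff.support ⊆ F := hF ▸ Finset.subset_union_left
  have hF₂ : c₂.coeff.support ⊆ F := hF ▸ Finset.subset_union_right
  have n₁ : 0 ≤ ‖toE c₁‖ := norm_nonneg _
  have n₂ : 0 ≤ ‖toE c₂‖ := norm_nonneg _
  have n₁' : 0 ≤ 4⁻¹ * ‖toE c₁‖ := mul_nonneg (by norm_num) n₁
  have n₂' : 0 ≤ 4⁻¹ * ‖toE c₂‖ := mul_nonneg (by norm_num) n₂
  have m₁ := mass_le ι₁ S₁ hS₁ i₁ F
  have m₂ := mass_le ι₂ S₂ hS₂ i₂ F
  have hH' : (16 : ℝ) ≤ Fintype.card H := by exact_mod_cast hH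
  have p₁ : ∑ g ∈ F with g ∈ S₁, ‖c₁.coeff g‖ ^ 2 ≤ (4⁻¹ * ‖toE c₁‖) ^ 2 := by
    have : 0 ≤ ∑ g ∈ F with g ∈ S₁, ‖c₁.coeff g‖ ^ 2 := Finset.sum_nonneg fun _ _ => sq_nonneg _
    nlinarith
  have p₂ : ∑ g ∈ F with g ∈ S₂, ‖c₂.coeff g‖ ^ 2 ≤ (4⁻¹ * ‖toE c₂‖) ^ 2 := by
    have : 0 ≤ ∑ g ∈ F with g ∈ S₂, ‖c₂.coeff g‖ ^ 2 := Finset.sum_nonneg fun _ _ => sq_nonneg _
    nlinarith
  have q₁ : ∑ g ∈ F, ‖c₁.coeff g‖ ^ 2 = ‖toE c₁‖ ^ 2 := (nsq' c₁ hF₁).symm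
  have q₂ : ∑ g ∈ F, ‖c₂.coeff g‖ ^ 2 = ‖toE c₂‖ ^ 2 := (nsq' c₂ hF₂).symm
  have h1 : ‖toE c₁‖ ^ 2 = (tr (star c₁ * c₂)).re := by
    have : star c₁ * c₁ = star c₁ * c₂ := by
      rw [hc₁, star_mul, star_avg, mul_assoc, ← mul_assoc (avg ι₁) (avg ι₁), avg_mul_avg, mul_assoc]
    rw [nsq, this]
  have h2 : (tr (star c₁ * c₂)).re ≤ ∑ g ∈ F, ‖c₁.coeff g‖ * ‖c₂.coeff g‖ := by
    rw [tr_star_mul, Finsupp.sum]
    refine (Complex.re_le_norm _).trans ((norm_sum_le _ _).trans ?_)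
    refine (Finset.sum_le_sum_of_subset_of_nonneg hF₁
      fun _ _ _ => norm_nonneg _).trans ?_
    refine Finset.sum_le_sum fun g _ => ?_
    rw [norm_mul, RCLike.norm_conj]
  have h3 : ∑ g ∈ F, ‖c₁.coeff g‖ * ‖c₂.coeff g‖ ≤
      ∑ g ∈ F with g ∈ S₁, ‖c₁.coeff g‖ * ‖c₂.coeff g‖ +
      ∑ g ∈ F with g ∈ S₂, ‖c₁.coeff g‖ * ‖c₂.coeff g‖ := by
    rw [← Finset.sum_filter_add_sum_filter_not F (· ∈ S₁)]
    refine add_le_add le_rfl ?_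
    refine Finset.sum_le_sum_of_subset_of_nonneg ?_ fun _ _ _ =>
      mul_nonneg (norm_nonneg _) (norm_nonneg _)
    intro g hg
    simp only [Finset.mem_filter] at hg ⊢
    exact ⟨hg.1, (hS g).resolve_left hg.2⟩
  have h4 : ∑ g ∈ F with g ∈ S₁, ‖c₁.coeff g‖ * ‖c₂.coeff g‖ ≤ 4⁻¹ * ‖toE c₁‖ * ‖toE c₂‖ := by
    refine (Real.sum_mul_le_sqrt_mul_sqrt _ _ _).trans ?_
    refine mul_le_mul ?_ ?_ (Real.sqrt_nonneg _) n₁'
    · exact Real.sqrt_le_iff.2 ⟨n₁', p₁⟩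
    · refine Real.sqrt_le_iff.2 ⟨n₂, ?_⟩
      rw [← q₂]
      exact Finset.sum_le_sum_of_subset_of_nonneg (Finset.filter_subset _ _) fun _ _ _ => sq_nonneg _
  have h5 : ∑ g ∈ F with g ∈ S₂, ‖c₁.coeff g‖ * ‖c₂.coeff g‖ ≤ ‖toE c₁‖ * (4⁻¹ * ‖toE c₂‖) := by
    refine (Real.sum_mul_le_sqrt_mul_sqrt _ _ _).trans ?_
    refine mul_le_mul ?_ ?_ (Real.sqrt_nonneg _) n₁
    · refine Real.sqrt_le_iff.2 ⟨n₁, ?_⟩
      rw [← q₁]
      exact Finset.sum_le_sum_of_subset_of_nonneg (Finset.filter_subset _ _) fun _ _ _ => sq_nonneg _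
    · exact Real.sqrt_le_iff.2 ⟨n₂', p₂⟩
  have h6 : ‖toE c₁‖ ^ 2 ≤ ‖toE c₁‖ * (2⁻¹ * ‖toE c₂‖) := by
    calc ‖toE c₁‖ ^ 2 ≤ 4⁻¹ * ‖toE c₁‖ * ‖toE c₂‖ + ‖toE c₁‖ * (4⁻¹ * ‖toE c₂‖) := by
          rw [h1]; linarith
      _ = ‖toE c₁‖ * (2⁻¹ * ‖toE c₂‖) := by ring
  have h7 : ‖toE c₁‖ ≤ 2⁻¹ * ‖toE c₂‖ := by
    by_cases h : ‖toE c₁‖ = 0
    · rw [h]; exact mul_nonneg (by norm_num) n₂
    · have : 0 < ‖toE c₁‖ := lt_of_le_of_ne n₁ (Ne.symm h)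
      nlinarith
  have h8 : ‖toE c₂‖ ≤ ‖toE b‖ := hc₂ ▸ norm_avg_mul_le ι₂ b
  linarith

end Gap

end Pool.Agent.MP_d87fde_al
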