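import Mathlib

open scoped TensorProduct

noncomputable section

namespace Pool.Agent.MP_d87fde_al

open Submodule in
/-- Nonzero elements with `δ a = a ⊗ a` are linearly independent, for any linear map
`δ : A → A ⊗ A`. -/
lemma linearIndepOn_grpLike {A : Type} [AddCommGroup A] [Module ℂ A] (δ : A →ₗ[ℂ] A ⊗[ℂ] A) :
    LinearIndepOn ℂ id {a : A | a ≠ 0 ∧ δ a = a ⊗ₜ[ℂ] a} := by
  classical
  rw [linearIndepOn_iff_linearIndepOn_finset]
  rintro s hs
  induction s using Finset.cons_induction with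
  | empty => simp
  | cons a s has ih =>
  simp only [Finset.cons_eq_insert, Finset.coe_insert, Set.subset_def, Set.mem_insert_iff,
    Finset.mem_coe, Set.mem_ofPred_eq, forall_eq_or_imp] at hs
  obtain ⟨ha, hs⟩ := hs
  specialize ih hs
  rw [Finset.coe_cons]
  refine ih.id_insert' ?_
  simp only [mem_span_finset, forall_exists_index, and_imp]
  rintro d c - hc
  replace ih := ih.tmul_of_isDomain ih
  simp_rw [← Finset.coe_product, linearIndepOn_finset_iffₛ, id] at ih
  have key := calc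
        ∑ x ∈ s, ∑ y ∈ s, (if x = y then d * c x else 0) • x ⊗ₜ[ℂ] y
    _ = d • ∑ x ∈ s, c x • x ⊗ₜ[ℂ] x := by simp [Finset.smul_sum, mul_smul]
    _ = d • δ (d • a) := by rw [← hc]; simp +contextual [(hs _ _).2]
    _ = (d • a) ⊗ₜ (d • a) := by simp [ha.2, TensorProduct.smul_tmul, TensorProduct.tmul_smul, -neg_smul]
    _ = ∑ x ∈ s, ∑ y ∈ s, (c x * c y) • x ⊗ₜ[ℂ] y := by
      simp_rw [← hc, TensorProduct.sum_tmul, TensorProduct.smul_tmul, Finset.smul_sum,
        TensorProduct.tmul_sum, TensorProduct.tmul_smul, mul_smul]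
  simp_rw [← Finset.sum_product'] at key
  apply ih at key
  replace key x (hx : x ∈ s) : c x = 0 := by
    by_contra! hcx
    have hcy (y) (hys : y ∈ s) (hyx : y ≠ x) : c y = 0 := by
      simpa [*] using (key (y, x) (by simp [*])).symm
    rw [Finset.sum_eq_single x (by simp +contextual [hcy]) (by simp [hx])] at hc
    have hcxa : d = c x := mul_left_injective₀ hcx (by simpa using (key (x, x) (by simp [*])))
    obtain rfl : x = a := by rwa [hcxa, smul_right_inj hcx] at hc
    contradiction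
  simp_all [eq_comm]

/-- dual functionals of a finite linearly independent family -/
lemma exists_dual {A : Type} [AddCommGroup A] [Module ℂ A] {n : Type} [DecidableEq n] {c : n → A}
    (hc : LinearIndependent ℂ c) (k : n) : ∃ ψ : A →ₗ[ℂ] ℂ, ∀ i, ψ (c i) = if i = k then 1 else 0 := by
  obtain ⟨g, hg⟩ := LinearMap.exists_extend ((Finsupp.lapply k).comp hc.repr)
  refine ⟨g, fun i => ?_⟩
  have h1 := congrArg (fun l => l ⟨c i, Submodule.subset_span ⟨i, rfl⟩⟩) hg
  simp only [LinearMap.comp_apply, Submodule.subtype_apply] at h1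
  rw [h1, hc.repr_eq_single i _ rfl]
  simp [Finsupp.single_apply]

/-- If `∑ aᵢ ⊗ bᵢ = ∑ a'ᵢ ⊗ b'ᵢ` with the `bᵢ` independent then each `aᵢ` is in the span of the
`a'ᵢ`. -/
lemma mem_span_of_tensor {A : Type} [AddCommGroup A] [Module ℂ A] {n : Type} [Fintype n]
    [DecidableEq n] {a b a' b' : n → A} (hb : LinearIndependent ℂ b)
    (h : ∑ i, a i ⊗ₜ[ℂ] b i = ∑ i, a' i ⊗ₜ[ℂ] b' i) (k : n) :
    a k ∈ Submodule.span ℂ (Set.range a') := by
  obtain ⟨ψ, hψ⟩ := exists_dual hb k
  have h1 := congrArg (fun t => TensorProduct.rid ℂ A (ψ.lTensor A t)) h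
  simp only [map_sum, LinearMap.lTensor_tmul, TensorProduct.rid_tmul, hψ, ite_smul, one_smul,
    zero_smul, Finset.sum_ite_eq', Finset.mem_univ, if_true] at h1
  rw [h1]
  exact Submodule.sum_mem _ fun i _ => Submodule.smul_mem _ _ (Submodule.subset_span ⟨i, rfl⟩)

end Pool.Agent.MP_d87fde_al
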