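import Mathlib
import Pool.Agent.Lib.MP_d87fde_al.Defs
import Pool.Agent.Lib.MP_d87fde_al.GrpLike

open scoped TensorProduct ENNReal

noncomputable section

namespace Pool.Agent.MP_d87fde_al

section General

variable {N : ℕ}

/-- scalar matrices -/
abbrev sm (R : Type) [Ring R] [Algebra ℂ R] (Q : Matrix (Fin N) (Fin N) ℂ) :
    Matrix (Fin N) (Fin N) R := Q.map (algebraMap ℂ R)

lemma sm_mul_star {Q : Matrix (Fin N) (Fin N) ℂ} (hQ : Q ∈ Matrix.unitaryGroup (Fin N) ℂ)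
    (R : Type) [Ring R] [Algebra ℂ R] : sm R Q * sm R (star Q) = 1 := by
  rw [sm, sm, ← Matrix.map_mul, Matrix.mem_unitaryGroup_iff.1 hQ]
  simp

lemma sm_star_mul {Q : Matrix (Fin N) (Fin N) ℂ} (hQ : Q ∈ Matrix.unitaryGroup (Fin N) ℂ)
    (R : Type) [Ring R] [Algebra ℂ R] : sm R (star Q) * sm R Q = 1 := by
  rw [sm, sm, ← Matrix.map_mul, Matrix.mem_unitaryGroup_iff'.1 hQ]
  simp

lemma sm_map {R S : Type} [Ring R] [Algebra ℂ R] [Ring S] [Algebra ℂ S] (φ : R →ₐ[ℂ] S)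
    (Q : Matrix (Fin N) (Fin N) ℂ) : (sm R Q).map φ = sm S Q := by
  ext a b; simp

variable {A : Type} [Ring A] [Algebra ℂ A] (u : Matrix (Fin N) (Fin N) A)

lemma conjU_eq (Q : Matrix (Fin N) (Fin N) ℂ) (i j : Fin N) :
    conjU u Q i j = (sm A Q * u * sm A (star Q)) i j := by
  simp only [conjU, Matrix.mul_apply, Matrix.map_apply, Matrix.star_apply, Finset.sum_mul]
  rw [Finset.sum_comm]
  refine Finset.sum_congr rfl fun l _ => Finset.sum_congr rfl fun k _ => ?_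
  rw [Algebra.smul_def, map_mul, mul_assoc, mul_assoc, Algebra.commutes (star (Q j l))]

lemma map_conjU {R : Type} [Ring R] [Algebra ℂ R] (φ : A →ₐ[ℂ] R)
    (Q : Matrix (Fin N) (Fin N) ℂ) (i j : Fin N) :
    φ (conjU u Q i j) = (sm R Q * u.map φ * sm R (star Q)) i j := by
  rw [conjU_eq, ← Matrix.map_apply (f := φ), Matrix.map_mul, Matrix.map_mul, sm_map, sm_map]

lemma u_eq {Q : Matrix (Fin N) (Fin N) ℂ} (hQ : Q ∈ Matrix.unitaryGroup (Fin N) ℂ) :
    u = sm A (star Q) * (Matrix.of fun i j => conjU u Q i j) * sm A Q := by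
  have : (Matrix.of fun i j => conjU u Q i j) = sm A Q * u * sm A (star Q) := by
    ext i j; exact conjU_eq u Q i j
  rw [this, ← mul_assoc, ← mul_assoc, sm_star_mul hQ, one_mul, mul_assoc, sm_star_mul hQ, mul_one]

/-- two algebra maps agreeing on the `v i j` agree on the `u i j` -/
lemma agree_u {R : Type} [Ring R] [Algebra ℂ R] {Q : Matrix (Fin N) (Fin N) ℂ}
    (hQ : Q ∈ Matrix.unitaryGroup (Fin N) ℂ) (φ ψ : A →ₐ[ℂ] R)
    (h : ∀ i j, φ (conjU u Q i j) = ψ (conjU u Q i j)) (i j : Fin N) :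
    φ (u i j) = ψ (u i j) := by
  have h1 : ∀ χ : A →ₐ[ℂ] R, u.map χ =
      sm R (star Q) * (Matrix.of fun i j => χ (conjU u Q i j)) * sm R Q := by
    intro χ
    conv_lhs => rw [u_eq u hQ, Matrix.map_mul, Matrix.map_mul, sm_map, sm_map]
    rfl
  have h2 : u.map φ = u.map ψ := by
    rw [h1, h1]; simp only [h]
  exact congrFun (congrFun h2 i) j

/-- the quotient map -/
abbrev quo (Q : Matrix (Fin N) (Fin N) ℂ) : A →ₐ[ℂ] RingQuot (offDiagRel u Q) :=
  RingQuot.mkAlgHom ℂ (offDiagRel u Q)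

lemma quo_off (Q : Matrix (Fin N) (Fin N) ℂ) {i j : Fin N} (h : i ≠ j) :
    quo u Q (conjU u Q i j) = 0 := by
  have : offDiagRel u Q (conjU u Q i j) 0 := ⟨i, j, h, rfl, rfl⟩
  rw [quo, RingQuot.mkAlgHom_rel ℂ this, map_zero]

variable {u} [StarRing A]

lemma counit_conjU (ε : Counit u) {Q : Matrix (Fin N) (Fin N) ℂ}
    (hQ : Q ∈ Matrix.unitaryGroup (Fin N) ℂ)
    (i j : Fin N) : ε.toHom (conjU u Q i j) = if i = j then 1 else 0 := by
  have h1 : ε.toHom (conjU u Q i j) = (ε.toHom : A →ₐ[ℂ] ℂ) (conjU u Q i j) := rfl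
  have h2 : u.map (ε.toHom : A →ₐ[ℂ] ℂ) = 1 := by
    ext a b; simp [ε.apply_u, Matrix.one_apply]
  rw [h1, map_conjU, h2, mul_one, sm_mul_star hQ, Matrix.one_apply]

/-- the quotient is nontrivial -/
lemma nontrivial_quotient (ε : Counit u) {Q : Matrix (Fin N) (Fin N) ℂ}
    (hQ : Q ∈ Matrix.unitaryGroup (Fin N) ℂ) : Nontrivial (RingQuot (offDiagRel u Q)) := by
  have hf : ∀ ⦃a b : A⦄, offDiagRel u Q a b →
      (ε.toHom : A →ₐ[ℂ] ℂ) a = (ε.toHom : A →ₐ[ℂ] ℂ) b := by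
    rintro a b ⟨i, j, hij, rfl, rfl⟩
    rw [map_zero]
    have := counit_conjU ε hQ i j
    rw [if_neg hij] at this
    exact this
  exact (RingQuot.liftAlgHom ℂ ⟨(ε.toHom : A →ₐ[ℂ] ℂ), hf⟩).toRingHom.domain_nontrivial

variable [StarModule ℂ A]

lemma comul_conjU (Δ : Comultiplication u) {Q : Matrix (Fin N) (Fin N) ℂ}
    (hQ : Q ∈ Matrix.unitaryGroup (Fin N) ℂ) (i j : Fin N) :
    Δ.toHom (conjU u Q i j) = ∑ k, conjU u Q i k ⊗ₜ[ℂ] conjU u Q k j := by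
  have h1 : Δ.toHom (conjU u Q i j) = (Δ.toHom : A →ₐ[ℂ] A ⊗[ℂ] A) (conjU u Q i j) := rfl
  have h2 : u.map (Δ.toHom : A →ₐ[ℂ] A ⊗[ℂ] A) =
      u.map (Algebra.TensorProduct.includeLeft : A →ₐ[ℂ] A ⊗[ℂ] A) *
      u.map (Algebra.TensorProduct.includeRight : A →ₐ[ℂ] A ⊗[ℂ] A) := by
    ext a b
    simp [Matrix.mul_apply, Δ.apply_u]
  have h3 : ∀ k, conjU u Q i k ⊗ₜ[ℂ] conjU u Q k j =
      (Algebra.TensorProduct.includeLeft : A →ₐ[ℂ] A ⊗[ℂ] A) (conjU u Q i k) *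
      (Algebra.TensorProduct.includeRight : A →ₐ[ℂ] A ⊗[ℂ] A) (conjU u Q k j) := by
    intro k; simp
  simp only [h3, map_conjU]
  rw [← Matrix.mul_apply, h1, map_conjU, h2]
  simp only [mul_assoc]
  rw [← mul_assoc (sm _ (star Q)) (sm _ Q), sm_star_mul hQ, one_mul]

/-- the comultiplication descends to the quotient -/
lemma exists_delta (Δ : Comultiplication u) {Q : Matrix (Fin N) (Fin N) ℂ}
    (hQ : Q ∈ Matrix.unitaryGroup (Fin N) ℂ) :
    ∃ δ : RingQuot (offDiagRel u Q) →ₐ[ℂ]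
        RingQuot (offDiagRel u Q) ⊗[ℂ] RingQuot (offDiagRel u Q),
      (∀ a, δ (quo u Q a) = Algebra.TensorProduct.map (quo u Q) (quo u Q) (Δ.toHom a)) ∧
      ∀ i j, δ (quo u Q (conjU u Q i j)) =
        if i = j then quo u Q (conjU u Q i i) ⊗ₜ quo u Q (conjU u Q i i) else 0 := by
  have key : ∀ i j, Algebra.TensorProduct.map (quo u Q) (quo u Q) (Δ.toHom (conjU u Q i j)) =
      if i = j then quo u Q (conjU u Q i i) ⊗ₜ quo u Q (conjU u Q i i) else 0 := by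
    intro i j
    rw [comul_conjU Δ hQ, map_sum]
    simp only [Algebra.TensorProduct.map_tmul]
    rw [Finset.sum_eq_single i]
    · split_ifs with h
      · rw [← h]
      · rw [quo_off u Q h, TensorProduct.tmul_zero]
    · intro k _ hk
      rw [quo_off u Q (Ne.symm hk), TensorProduct.zero_tmul]
    · simp
  let f : A →ₐ[ℂ] RingQuot (offDiagRel u Q) ⊗[ℂ] RingQuot (offDiagRel u Q) :=
    (Algebra.TensorProduct.map (quo u Q) (quo u Q)).comp (Δ.toHom : A →ₐ[ℂ] A ⊗[ℂ] A)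
  have hf : ∀ ⦃a b : A⦄, offDiagRel u Q a b → f a = f b := by
    rintro a b ⟨i, j, hij, rfl, rfl⟩
    rw [map_zero]
    have := key i j
    rw [if_neg hij] at this
    exact this
  refine ⟨RingQuot.liftAlgHom ℂ ⟨f, hf⟩, fun a => ?_, fun i j => ?_⟩
  · exact RingQuot.liftAlgHom_mkAlgHom_apply ℂ f hf a
  · rw [← key i j]
    exact RingQuot.liftAlgHom_mkAlgHom_apply ℂ f hf _

omit [StarRing A] [StarModule ℂ A] in
/-- flip-invariance on the quotient, when the `u i j` generate as an algebra -/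
lemma flip_inv {Q : Matrix (Fin N) (Fin N) ℂ} (hQ : Q ∈ Matrix.unitaryGroup (Fin N) ℂ)
    (hgen : Algebra.adjoin ℂ (Set.range fun ij : Fin N × Fin N => u ij.1 ij.2) = ⊤)
    (δ : RingQuot (offDiagRel u Q) →ₐ[ℂ] RingQuot (offDiagRel u Q) ⊗[ℂ] RingQuot (offDiagRel u Q))
    (hδ : ∀ i j, δ (quo u Q (conjU u Q i j)) =
        if i = j then quo u Q (conjU u Q i i) ⊗ₜ quo u Q (conjU u Q i i) else 0) (a : A) :
    (Algebra.TensorProduct.comm ℂ (RingQuot (offDiagRel u Q)) (RingQuot (offDiagRel u Q))).toAlgHom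
      (δ (quo u Q a)) = δ (quo u Q a) := by
  have h1 : ((Algebra.TensorProduct.comm ℂ (RingQuot (offDiagRel u Q))
      (RingQuot (offDiagRel u Q))).toAlgHom.comp (δ.comp (quo u Q))) = δ.comp (quo u Q) := by
    refine AlgHom.ext_of_adjoin_eq_top hgen ?_
    rintro _ ⟨ij, rfl⟩
    refine agree_u u hQ _ _ (fun i j => ?_) _ _
    simp only [AlgHom.comp_apply, hδ]
    split_ifs
    · simp
    · simp
  exact congrArg (fun f => f a) h1

end General

end Pool.Agent.MP_d87fde_al
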