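import Mathlib
import Pool.Agent.Lib.MP_d87fde_al.Defs
import Pool.Agent.Lib.MP_d87fde_al.Alg
import Pool.Agent.Lib.MP_d87fde_al.Twist
import Pool.Agent.Lib.MP_d87fde_al.Norm

open scoped TensorProduct ENNReal

noncomputable section

namespace Pool.Agent.MP_d87fde_al

section Haar

variable {Γ : Type} [Group Γ] {x y : Γ}

lemma comT_gl (hx : x * x = 1) (hy : y * y = 1) (g : Γ) :
    comT hx hy (gl g) = gl g ⊗ₜ (f y 0 * gl g * f y 0) + (gl g * gl x) ⊗ₜ (f y 0 * gl g * f y 1)
      + (gl x * gl g) ⊗ₜ (f y 1 * gl g * f y 0)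
      + (gl x * gl g * gl x) ⊗ₜ (f y 1 * gl g * f y 1) := by
  rw [comT_apply, com0_gl, J]
  simp only [add_mul, mul_add, Algebra.TensorProduct.tmul_mul_tmul, one_mul, mul_one]
  abel

lemma tr_f_gl (j : Fin 2) (g : Γ) :
    tr (f y j * gl g) = 2⁻¹ * (tr (gl g) + (-1) ^ (j : ℕ) * tr (gl (y * g))) := by
  rw [f, smul_mul_assoc, add_mul, one_mul, smul_mul_assoc, gl_mul, map_smul, map_add, map_smul]
  simp

lemma tr_fgf (hy : y * y = 1) (i j : Fin 2) (g : Γ) :
    tr (f y i * gl g * f y j) = if i = j then tr (f y i * gl g) else 0 := by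
  rw [tr_mul_comm, ← mul_assoc, f_mul_f hy]
  split_ifs with h h' h'
  · rw [h]
  · exact absurd h.symm h'
  · exact absurd h'.symm h
  · simp

lemma haar_left (hx : x * x = 1) (hy : y * y = 1) (hxy : x * y = y * x) (a : GA Γ) :
    TensorProduct.rid ℂ (GA Γ) ((tr (Γ := Γ)).lTensor (GA Γ) (comT hx hy a)) = tr a • (1 : GA Γ) := by
  classical
  induction a using GA.ind with
  | zero => simp
  | add a b ha hb => simp only [map_add, ha, hb, add_smul]
  | smul c a ha => simp only [map_smul, ha, smul_assoc]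
  | gl g =>
    rw [comT_gl]
    simp only [map_add, LinearMap.lTensor_tmul, TensorProduct.rid_tmul, tr_fgf hy, tr_f_gl]
    simp only [gl_mul, tr_gl]
    have e1 : x * 1 * x = 1 := by simpa using hx
    have e2 : x * y * x = y := by rw [hxy, mul_assoc, hx, mul_one]
    by_cases h1 : g = 1
    · subst h1
      simp only [e1]
      by_cases h2 : y = 1 <;> simp [h2, gl_one] <;> module
    · by_cases h2 : y * g = 1
      · have h3 : g = y := by
          have : y * (y * g) = y := by rw [h2, mul_one]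
          rwa [← mul_assoc, hy, one_mul] at this
        subst h3
        simp [h1, hy, e2]
      · simp [h1, h2]

lemma haar_right (hx : x * x = 1) (hy : y * y = 1) (hxy : x * y = y * x) (a : GA Γ) :
    TensorProduct.lid ℂ (GA Γ) ((tr (Γ := Γ)).rTensor (GA Γ) (comT hx hy a)) = tr a • (1 : GA Γ) := by
  classical
  induction a using GA.ind with
  | zero => simp
  | add a b ha hb => simp only [map_add, ha, hb, add_smul]
  | smul c a ha => simp only [map_smul, ha, smul_assoc]
  | gl g =>
    rw [comT_gl]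
    have h5 : tr (gl g * gl x) = tr (gl x * gl g) := tr_mul_comm _ _
    have h6 : tr (gl x * gl g * gl x) = tr (gl g) := by
      rw [tr_mul_comm, ← mul_assoc, gl_mul, hx, gl_one, one_mul]
    simp only [map_add, LinearMap.rTensor_tmul, TensorProduct.lid_tmul, h5, h6]
    have h7 : f y 0 + f y 1 = (1 : GA Γ) := f_add
    by_cases h1 : g = 1
    · subst h1
      simp [gl_one, f_mul_f hy, h7, tr_one]
    · by_cases h2 : g = x
      · subst h2
        have h3 : f y 0 * gl g * f y 1 = 0 := by rw [← X_f hxy, mul_assoc, f_mul_f hy]; simp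
        have h4 : f y 1 * gl g * f y 0 = 0 := by rw [← X_f hxy, mul_assoc, f_mul_f hy]; simp
        simp [h3, h4, tr_gl, h1]
      · have h3 : x * g ≠ 1 := by
          intro h; apply h2
          have : x * (x * g) = x := by rw [h, mul_one]
          rwa [← mul_assoc, hx, one_mul] at this
        simp [gl_mul, tr_gl, h1, h3]

end Haar

section QG

variable {Γ : Type} [Group Γ] {x y : Γ} {I : Type} [Fintype I] [DecidableEq I] (γ : I → Γ)
set_option linter.unusedSectionVars false

/-- the fundamental corepresentation with entries indexed by `I × (Fin 2 × Fin 2)` -/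
def uu (x y : Γ) (γ : I → Γ) (i j : I × (Fin 2 × Fin 2)) : GA Γ :=
  if i.1 = j.1 then blk x y (γ i.1) i.2 j.2 else 0

lemma uu_star_mul (hx : x * x = 1) (hy : y * y = 1) (hxy : x * y = y * x)
    (i j : I × (Fin 2 × Fin 2)) :
    ∑ k, star (uu x y γ k i) * uu x y γ k j = if i = j then 1 else 0 := by
  rw [Fintype.sum_prod_type, Finset.sum_eq_single i.1]
  · by_cases h : i.1 = j.1
    · simp [uu, h, star_mul_blk hx hy hxy, Prod.ext_iff]
    · have : i ≠ j := fun h' => h (by rw [h'])
      simp [uu, h, this]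
  · intro b _ hb; simp [uu, hb]
  · simp

lemma uu_mul_star (hx : x * x = 1) (hy : y * y = 1) (hxy : x * y = y * x)
    (i j : I × (Fin 2 × Fin 2)) :
    ∑ k, uu x y γ i k * star (uu x y γ j k) = if i = j then 1 else 0 := by
  rw [Fintype.sum_prod_type, Finset.sum_eq_single i.1]
  · by_cases h : i.1 = j.1
    · simp [uu, h, blk_mul_star hx hy hxy, Prod.ext_iff]
    · have : i ≠ j := fun h' => h (by rw [h'])
      simp [uu, Ne.symm h, this]
  · intro b _ hb; simp [uu, Ne.symm hb]
  · simp

lemma comT_uu (hx : x * x = 1) (hy : y * y = 1) (hxy : x * y = y * x)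
    (i j : I × (Fin 2 × Fin 2)) :
    comT hx hy (uu x y γ i j) = ∑ k, uu x y γ i k ⊗ₜ[ℂ] uu x y γ k j := by
  rw [Fintype.sum_prod_type, Finset.sum_eq_single i.1]
  · by_cases h : i.1 = j.1
    · simp [uu, h, comT_blk hx hy hxy]
    · simp [uu, h]
  · intro b _ hb; simp [uu, Ne.symm hb]
  · simp

lemma eps_uu (i j : I × (Fin 2 × Fin 2)) :
    eps (uu x y γ i j) = if i = j then 1 else 0 := by
  by_cases h : i.1 = j.1
  · simp [uu, h, eps_blk, Prod.ext_iff]
  · have : i ≠ j := fun h' => h (by rw [h'])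
    simp [uu, h, this]

lemma antT_uu (hx : x * x = 1) (hy : y * y = 1) (hxy : x * y = y * x)
    (i j : I × (Fin 2 × Fin 2)) :
    antT hx hy hxy (uu x y γ i j) = MulOpposite.op (star (uu x y γ j i)) := by
  by_cases h : i.1 = j.1
  · simp [uu, h, antT_blk hx hy hxy]
  · simp [uu, h, Ne.symm h]

lemma gl_mem_adjoin (t : I) :
    gl (γ t) ∈ Algebra.adjoin ℂ (Set.range fun ij : (I × (Fin 2 × Fin 2)) × (I × (Fin 2 × Fin 2)) =>
      uu x y γ ij.1 ij.2) := by
  have h : gl (γ t) = ∑ p : Fin 2, ∑ q : Fin 2, uu x y γ (t, (p, q)) (t, (0, 0)) := by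
    have h7 : f y 0 + f y 1 = (1 : GA Γ) := f_add
    have h8 : f y 1 + f y 0 = (1 : GA Γ) := by rw [add_comm]; exact f_add
    simp [uu, blk, W, Fin.sum_univ_two, ← mul_add]
    rw [h7]
    simp [← add_mul, h7]
  rw [h]
  refine Subalgebra.sum_mem _ fun p _ => Subalgebra.sum_mem _ fun q _ => ?_
  exact Algebra.subset_adjoin ⟨((t, (p, q)), (t, (0, 0))), rfl⟩

lemma adjoin_uu (hγ : Submonoid.closure (Set.range γ) = ⊤) :
    Algebra.adjoin ℂ (Set.range fun ij : (I × (Fin 2 × Fin 2)) × (I × (Fin 2 × Fin 2)) =>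
      uu x y γ ij.1 ij.2) = ⊤ := by
  rw [eq_top_iff]
  rintro a -
  induction a using GA.ind with
  | zero => exact Subalgebra.zero_mem _
  | add a b ha hb => exact Subalgebra.add_mem _ ha hb
  | smul c a ha => exact Subalgebra.smul_mem _ ha c
  | gl g =>
    have hg : g ∈ Submonoid.closure (Set.range γ) := by rw [hγ]; trivial
    induction hg using Submonoid.closure_induction with
    | mem g hg => obtain ⟨t, rfl⟩ := hg; exact gl_mem_adjoin γ t
    | one => rw [gl_one]; exact Subalgebra.one_mem _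
    | mul g h _ _ hg hh => rw [← gl_mul]; exact Subalgebra.mul_mem _ hg hh

end QG

end Pool.Agent.MP_d87fde_al
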