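import Mathlib
import Pool.Agent.Lib.MP_d87fde_al.Defs
import Pool.Agent.Lib.MP_d87fde_al.Alg
import Pool.Agent.Lib.MP_d87fde_al.Twist
import Pool.Agent.Lib.MP_d87fde_al.Norm
import Pool.Agent.Lib.MP_d87fde_al.Group

open scoped TensorProduct ENNReal

noncomputable section

namespace Pool.Agent.MP_d87fde_al

section QG

variable {Γ : Type} [Group Γ] {x y : Γ} {I : Type} [Fintype I] [DecidableEq I] (γ : I → Γ)

/-- the enumeration of the index set -/
def en (I : Type) [Fintype I] : Fin (Fintype.card (I × (Fin 2 × Fin 2))) ≃ I × (Fin 2 × Fin 2) :=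
  (Fintype.equivFin _).symm

lemma range_en : (Set.range fun ij : Fin (Fintype.card (I × (Fin 2 × Fin 2))) ×
      Fin (Fintype.card (I × (Fin 2 × Fin 2))) => uu x y γ (en I ij.1) (en I ij.2)) =
    (Set.range fun ij : (I × (Fin 2 × Fin 2)) × (I × (Fin 2 × Fin 2)) => uu x y γ ij.1 ij.2) := by
  ext a; constructor
  · rintro ⟨ij, rfl⟩; exact ⟨(en I ij.1, en I ij.2), rfl⟩
  · rintro ⟨ij, rfl⟩; exact ⟨((en I).symm ij.1, (en I).symm ij.2), by simp⟩

/-- The dual of `Γ`, twisted by the 2-cocycle `J x y`. -/
def QG (hx : x * x = 1) (hy : y * y = 1) (hxy : x * y = y * x)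
    (hγ : Submonoid.closure (Set.range γ) = ⊤) :
    CompactMatrixQuantumGroup (Fintype.card (I × (Fin 2 × Fin 2))) where
  Pol := GA Γ
  u := fun i j => uu x y γ (en I i) (en I j)
  str :=
  { separating := separating
    generates := by
      rw [eq_top_iff]
      rintro a -
      have h := adjoin_uu (x := x) (y := y) γ hγ
      have h2 : Algebra.adjoin ℂ (Set.range fun ij : Fin (Fintype.card (I × (Fin 2 × Fin 2))) ×
        Fin (Fintype.card (I × (Fin 2 × Fin 2))) => uu x y γ (en I ij.1) (en I ij.2)) ≤
        (StarAlgebra.adjoin ℂ (Set.range fun ij : Fin (Fintype.card (I × (Fin 2 × Fin 2))) ×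
        Fin (Fintype.card (I × (Fin 2 × Fin 2))) =>
          uu x y γ (en I ij.1) (en I ij.2))).toSubalgebra := by
        rw [StarAlgebra.adjoin_toSubalgebra]
        exact Algebra.adjoin_mono Set.subset_union_left
      apply h2
      rw [range_en, h]
      trivial
    star_u_mul_u := fun i j => by
      have := uu_star_mul γ hx hy hxy (en I i) (en I j)
      rw [← (en I).sum_comp] at this
      rw [this]; simp
    u_mul_star_u := fun i j => by
      have := uu_mul_star γ hx hy hxy (en I i) (en I j)
      rw [← (en I).sum_comp] at this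
      rw [this]; simp
    comul :=
      { toHom := comT hx hy
        apply_u := fun i j => by
          have := comT_uu γ hx hy hxy (en I i) (en I j)
          rw [← (en I).sum_comp] at this
          exact this }
    counit :=
      { toHom := eps
        apply_u := fun i j => by
          rw [eps_uu]; simp }
    antipode :=
      { toHom := antT hx hy hxy
        apply_u := fun i j => antT_uu γ hx hy hxy _ _ } }

/-- the canonical trace is the Haar state -/
lemma isHaarState_tr (hx : x * x = 1) (hy : y * y = 1) (hxy : x * y = y * x)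
    (hγ : Submonoid.closure (Set.range γ) = ⊤) :
    IsHaarState (QG γ hx hy hxy hγ).str.comul (tr (Γ := Γ)) where
  map_one := tr_one
  nonneg a := by
    constructor
    · have := tr_star_self_re (Γ := Γ) a
      exact this ▸ Finset.sum_nonneg fun _ _ => by positivity
    · exact tr_star_self_im (Γ := Γ) a
  left_inv a := haar_left hx hy hxy a
  right_inv a := haar_right hx hy hxy a

end QG

/-- uniqueness of the Haar state -/
lemma haar_unique {A : Type} [Ring A] [StarRing A] [Algebra ℂ A] [StarModule ℂ A] {N : ℕ}
    {u : Matrix (Fin N) (Fin N) A} (Δ : Comultiplication u) {h h' : A →ₗ[ℂ] ℂ}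
    (H : IsHaarState Δ h) (H' : IsHaarState Δ h') : h = h' := by
  ext a
  have h1 := congrArg h' (H.left_inv a)
  have h2 := congrArg h (H'.right_inv a)
  simp only [map_smul, H'.map_one, H.map_one, smul_eq_mul, mul_one] at h1 h2
  rw [← h1, ← h2]
  generalize Δ.toHom a = t
  simp only [idTensor, tensorId]
  induction t with
  | zero => simp
  | add x y hx hy => simp only [map_add, hx, hy]
  | tmul x y => simp [mul_comm]

end Pool.Agent.MP_d87fde_al
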