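import Mathlib
import Pool.Agent.Lib.MP_d87fde_al.Defs
import Pool.Agent.Lib.MP_d87fde_al.Alg
import Pool.Agent.Lib.MP_d87fde_al.Twist
import Pool.Agent.Lib.MP_d87fde_al.Norm
import Pool.Agent.Lib.MP_d87fde_al.Group
import Pool.Agent.Lib.MP_d87fde_al.QG
import Pool.Agent.Lib.MP_d87fde_al.GrpLike

open scoped TensorProduct ENNReal

noncomputable section

namespace Pool.Agent.MP_d87fde_al

section Torus

variable {Γ : Type} [Group Γ] {x y : Γ} (hxy : x * y = y * x)
  {B : Type} [Ring B] [Algebra ℂ B] (π : GA Γ →ₐ[ℂ] B) (δ : B →ₐ[ℂ] B ⊗[ℂ] B)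

/-- the flip -/
abbrev flip (B : Type) [Ring B] [Algebra ℂ B] : B ⊗[ℂ] B →ₐ[ℂ] B ⊗[ℂ] B :=
  (Algebra.TensorProduct.comm ℂ B B).toAlgHom

/-- the group homomorphism `Γ → B` underlying `π` -/
def rho : Γ →* B where
  toFun g := π (gl g)
  map_one' := by rw [gl_one, map_one]
  map_mul' g h := by rw [← map_mul, gl_mul]

lemma rho_apply (g : Γ) : rho π g = π (gl g) := rfl

lemma rho_inv (g : Γ) : rho π g * rho π g⁻¹ = 1 := by rw [← map_mul]; simp
lemma rho_inv' (g : Γ) : rho π g⁻¹ * rho π g = 1 := by rw [← map_mul]; simp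

include hxy in
lemma delta_x (hx : x * x = 1) (hy : y * y = 1)
    (hδ : ∀ a, δ (π a) = Algebra.TensorProduct.map π π (comT hx hy a)) :
    δ (rho π x) = rho π x ⊗ₜ rho π x := by
  rw [rho_apply, hδ, comT_apply, com0_gl]
  have : J x y * gl x ⊗ₜ[ℂ] gl x = gl x ⊗ₜ[ℂ] gl x * J x y := by
    simp [J, mul_add, add_mul, X_f hxy]
  rw [this, mul_assoc, J_mul_J hx hy, mul_one]; simp

include hxy in
lemma delta_y (hx : x * x = 1) (hy : y * y = 1)
    (hδ : ∀ a, δ (π a) = Algebra.TensorProduct.map π π (comT hx hy a)) :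
    δ (rho π y) = rho π y ⊗ₜ rho π y := by
  rw [rho_apply, hδ, comT_apply, com0_gl]
  have h1 : ∀ j, gl y * f y j = f y j * gl y := fun j => by simp [f, mul_add, add_mul]
  have h2 : gl x * gl y = gl y * gl x := by rw [gl_mul, gl_mul, hxy]
  have : J x y * gl y ⊗ₜ[ℂ] gl y = gl y ⊗ₜ[ℂ] gl y * J x y := by
    simp [J, mul_add, add_mul, h1, h2]
  rw [this, mul_assoc, J_mul_J hx hy, mul_one]; simp

/-- `R = (flip J) J` in `B ⊗ B` -/
def RR (x y : Γ) : B ⊗[ℂ] B :=
  flip B (Algebra.TensorProduct.map π π (J x y)) * Algebra.TensorProduct.map π π (J x y)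

lemma RR_comm (hx : x * x = 1) (hy : y * y = 1)
    (hδ : ∀ a, δ (π a) = Algebra.TensorProduct.map π π (comT hx hy a))
    (hflip : ∀ a, flip B (δ (π a)) = δ (π a)) (g : Γ) :
    (rho π g ⊗ₜ rho π g) * RR π x y = RR π x y * (rho π g ⊗ₜ rho π g) := by
  have h1 := hflip (gl g)
  rw [hδ, comT_apply, com0_gl, map_mul, map_mul] at h1
  simp only [map_mul, Algebra.TensorProduct.map_tmul] at h1
  have hc : flip B (π (gl g) ⊗ₜ[ℂ] π (gl g)) = π (gl g) ⊗ₜ[ℂ] π (gl g) := by
    simp [flip]
  rw [hc] at h1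
  set j := Algebra.TensorProduct.map π π (J x y) with hj
  set k := flip B j with hk
  have hjj : j * j = 1 := by rw [hj, ← map_mul, J_mul_J hx hy, map_one]
  have hkk : k * k = 1 := by rw [hk, ← map_mul, hjj, map_one]
  set G := π (gl g) ⊗ₜ[ℂ] π (gl g) with hG
  change G * (k * j) = (k * j) * G
  calc G * (k * j) = (k * k) * G * (k * j) := by rw [hkk, one_mul]
    _ = k * (k * G * k) * j := by noncomm_ring
    _ = k * (j * G * j) * j := by rw [h1]
    _ = (k * j) * G * (j * j) := by noncomm_ring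
    _ = (k * j) * G := by rw [hjj, mul_one]

/-- first legs of `R` -/
def legA (x y : Γ) (i : Fin 2 × Fin 2) : B := π (f y i.1) * rho π x ^ (i.2 : ℕ)

/-- second legs of `R` -/
def legB (x y : Γ) (i : Fin 2 × Fin 2) : B := rho π x ^ (i.1 : ℕ) * π (f y i.2)

lemma RR_eq : RR π x y = ∑ i, legA π x y i ⊗ₜ[ℂ] legB π x y i := by
  rw [RR, J]
  simp only [map_add, Algebra.TensorProduct.map_tmul, map_one]
  simp [flip, legA, legB, Fintype.sum_prod_type, mul_add, add_mul, rho_apply]
  abel

/-- the four group-like elements coming from the Klein four-group -/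
def vv (x y : Γ) (i : Fin 2 × Fin 2) : B := rho π x ^ (i.1 : ℕ) * rho π y ^ (i.2 : ℕ)

include hxy in
lemma vv_indep [Nontrivial B] (hx : x * x = 1) (hy : y * y = 1)
    (hδ : ∀ a, δ (π a) = Algebra.TensorProduct.map π π (comT hx hy a))
    (h1 : rho π x ≠ 1) (h2 : rho π y ≠ 1) (h3 : rho π (x * y) ≠ 1) :
    LinearIndependent ℂ (vv π x y) := by
  have hX : rho π x * rho π x = 1 := by rw [← map_mul, hx, map_one]
  have hY : rho π y * rho π y = 1 := by rw [← map_mul, hy, map_one]
  have hXY : rho π x * rho π y ≠ 1 := by rwa [← map_mul]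
  have hne : ∀ g, rho π g ≠ 0 := by
    intro g hg
    have := rho_inv π g
    rw [hg, zero_mul] at this
    exact zero_ne_one this
  have hv : ∀ i, vv π x y i ≠ 0 ∧ δ (vv π x y i) = vv π x y i ⊗ₜ[ℂ] vv π x y i := by
    intro i
    constructor
    · simp only [vv, ← map_pow, ← map_mul]; exact hne _
    · simp only [vv, map_mul, map_pow, delta_x hxy π δ hx hy hδ, delta_y hxy π δ hx hy hδ,
        Algebra.TensorProduct.tmul_pow, Algebra.TensorProduct.tmul_mul_tmul]
  have hinj : Function.Injective (vv π x y) := by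
    have hc1 : rho π x ≠ rho π y := fun h => hXY (by rw [h, hY])
    have hc2 : rho π x ≠ rho π x * rho π y := by
      intro h; apply h2
      have := congrArg (rho π x * ·) h
      simp only [← mul_assoc, hX, one_mul] at this
      exact this.symm
    have hc3 : rho π y ≠ rho π x * rho π y := by
      intro h; apply h1
      have := congrArg (· * rho π y) h
      simp only [mul_assoc, hY, mul_one] at this
      exact this.symm
    rintro ⟨i, j⟩ ⟨k, l⟩ h
    fin_cases i <;> fin_cases j <;> fin_cases k <;> fin_cases l <;>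
      simp only [vv, Fin.zero_eta, Fin.mk_one, Fin.val_zero, Fin.val_one, pow_zero, pow_one,
        one_mul, mul_one] at h <;>
      first
      | rfl
      | exact absurd h h1
      | exact absurd h.symm h1
      | exact absurd h h2
      | exact absurd h.symm h2
      | exact absurd h hXY
      | exact absurd h.symm hXY
      | exact absurd h hc1
      | exact absurd h.symm hc1
      | exact absurd h hc2
      | exact absurd h.symm hc2
      | exact absurd h hc3
      | exact absurd h.symm hc3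
  have := (linearIndepOn_grpLike δ.toLinearMap).comp
    (fun i => (⟨vv π x y i, hv i⟩ : {a : B | a ≠ 0 ∧ δ.toLinearMap a = a ⊗ₜ[ℂ] a}))
    (fun i j h => hinj (congrArg Subtype.val h))
  exact this

lemma legB_indep (h : LinearIndependent ℂ (vv π x y)) : LinearIndependent ℂ (legB π x y) := by
  rw [Fintype.linearIndependent_iff] at h ⊢
  intro c hc
  have e0 : f y 0 = (2⁻¹ : ℂ) • (1 : GA Γ) + (2⁻¹ : ℂ) • gl y := by simp [f]
  have e1 : f y 1 = (2⁻¹ : ℂ) • (1 : GA Γ) - (2⁻¹ : ℂ) • gl y := by simp [f]; module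
  have key := h (fun i => if i.2 = 0 then 2⁻¹ * (c (i.1, 0) + c (i.1, 1))
    else 2⁻¹ * (c (i.1, 0) - c (i.1, 1))) (by
      rw [← hc]
      simp only [Fintype.sum_prod_type, Fin.sum_univ_two, vv, legB, e0, e1]
      simp [← rho_apply, mul_add, mul_sub]
      module)
  intro i
  have k0 := key (i.1, 0)
  have k1 := key (i.1, 1)
  simp at k0 k1
  obtain ⟨i, j⟩ := i
  have h0 : c (i, 0) = 0 := by linear_combination (1/2) * k0 + (1/2) * k1
  have h1 : c (i, 1) = 0 := by linear_combination (1/2) * k0 - (1/2) * k1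
  fin_cases j
  · exact h0
  · exact h1

include hxy in
lemma comm_of_distinct [Nontrivial B] (hx : x * x = 1) (hy : y * y = 1)
    (hδ : ∀ a, δ (π a) = Algebra.TensorProduct.map π π (comT hx hy a))
    (hflip : ∀ a, flip B (δ (π a)) = δ (π a))
    (h1 : rho π x ≠ 1) (h2 : rho π y ≠ 1) (h3 : rho π (x * y) ≠ 1) (g : Γ) :
    rho π (g * x * g⁻¹) * rho π x = rho π x * rho π (g * x * g⁻¹) := by
  have hB := legB_indep π (vv_indep hxy π δ hx hy hδ h1 h2 h3)
  have hR := RR_comm π δ hx hy hδ hflip g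
  have hX : rho π x * rho π x = 1 := by rw [← map_mul, hx, map_one]
  -- conjugated legs
  have hb' : LinearIndependent ℂ (fun i => rho π g * legB π x y i * rho π g⁻¹) := by
    have hinj : Function.Injective ((LinearMap.mulLeft ℂ (rho π g)).comp
        (LinearMap.mulRight ℂ (rho π g⁻¹))) := by
      intro a b hab
      simp only [LinearMap.comp_apply, LinearMap.mulLeft_apply, LinearMap.mulRight_apply] at hab
      have := congrArg (fun c => rho π g⁻¹ * c * rho π g) hab
      simp only [mul_assoc, rho_inv', mul_one] at this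
      simpa only [← mul_assoc, rho_inv', one_mul] using this
    have h2 : (fun i => rho π g * legB π x y i * rho π g⁻¹) = ((LinearMap.mulLeft ℂ (rho π g)).comp
        (LinearMap.mulRight ℂ (rho π g⁻¹))) ∘ legB π x y := by
      ext i; simp [mul_assoc]
    rw [h2]
    exact hB.map' _ (LinearMap.ker_eq_bot.2 hinj)
  have heq : ∑ i, (rho π g * legA π x y i * rho π g⁻¹) ⊗ₜ[ℂ] (rho π g * legB π x y i * rho π g⁻¹)
      = ∑ i, legA π x y i ⊗ₜ[ℂ] legB π x y i := by
    rw [← RR_eq]
    have : RR π x y = (rho π g ⊗ₜ rho π g) * RR π x y * (rho π g⁻¹ ⊗ₜ rho π g⁻¹) := by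
      rw [hR, mul_assoc, Algebra.TensorProduct.tmul_mul_tmul, rho_inv]
      simp [← Algebra.TensorProduct.one_def]
    rw [this]
    conv_rhs => rw [RR_eq]
    simp [Finset.mul_sum, Finset.sum_mul]
  have hmem := mem_span_of_tensor hb' heq
  have hcomm : ∀ b ∈ Submodule.span ℂ (Set.range (legA π x y)), b * rho π x = rho π x * b := by
    intro b hb
    induction hb using Submodule.span_induction with
    | mem b hb =>
      obtain ⟨i, rfl⟩ := hb
      have hF : ∀ j, π (f y j) * rho π x = rho π x * π (f y j) := fun j => by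
        rw [rho_apply, ← map_mul, ← map_mul, X_f hxy]
      simp only [legA]
      rw [mul_assoc, ← pow_succ, pow_succ', ← mul_assoc, hF, mul_assoc]
    | zero => simp
    | add a b _ _ ha hb => rw [add_mul, mul_add, ha, hb]
    | smul c a _ ha => rw [smul_mul_assoc, mul_smul_comm, ha]
  have hXsum : rho π x = legA π x y (0, 1) + legA π x y (1, 1) := by
    have h7 : f y 0 + f y 1 = (1 : GA Γ) := f_add
    simp [legA, ← add_mul, ← map_add, h7]
  have hmem2 : rho π (g * x * g⁻¹) ∈ Submodule.span ℂ (Set.range (legA π x y)) := by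
    rw [map_mul, map_mul, hXsum, mul_add, add_mul]
    exact Submodule.add_mem _ (hmem _) (hmem _)
  exact hcomm _ hmem2

/-- If `G₀` is a simple group containing noncommuting conjugates of `x₀`, then `rho π` kills its
image in `Γ`. -/
lemma kills {G₀ : Type} [Group G₀] [IsSimpleGroup G₀] (ι : G₀ →* Γ) (x₀ y₀ : G₀)
    (hxyne : x₀ ≠ 1 ∧ y₀ ≠ 1 ∧ x₀ * y₀ ≠ 1)
    (g₀ : G₀) (hg₀ : g₀ * x₀ * g₀⁻¹ * x₀ ≠ x₀ * (g₀ * x₀ * g₀⁻¹)) [Nontrivial B]
    (hxy : ι x₀ * ι y₀ = ι y₀ * ι x₀)
    (hx : ι x₀ * ι x₀ = 1) (hy : ι y₀ * ι y₀ = 1)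
    (hδ : ∀ a, δ (π a) = Algebra.TensorProduct.map π π (comT hx hy a))
    (hflip : ∀ a, flip B (δ (π a)) = δ (π a)) (h : G₀) : rho π (ι h) = 1 := by
  have hker : ((rho π).comp ι).ker = ⊥ ∨ ((rho π).comp ι).ker = ⊤ :=
    (MonoidHom.normal_ker _).eq_bot_or_eq_top
  rcases hker with hker | hker
  · exfalso
    have hinj : Function.Injective ((rho π).comp ι) := (MonoidHom.ker_eq_bot_iff _).1 hker
    have hne : ∀ z : G₀, z ≠ 1 → rho π (ι z) ≠ 1 := by
      intro z hz h1
      apply hz
      apply hinj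
      rw [map_one]; exact h1
    have h1 := hne x₀ hxyne.1
    have h2 := hne y₀ hxyne.2.1
    have h3 : rho π (ι x₀ * ι y₀) ≠ 1 := by rw [← map_mul]; exact hne _ hxyne.2.2
    have := comm_of_distinct hxy π δ hx hy hδ hflip h1 h2 h3 (ι g₀)
    apply hg₀
    apply hinj
    simpa [map_mul, map_inv] using this
  · have : h ∈ ((rho π).comp ι).ker := by rw [hker]; trivial
    exact this

end Torus

end Pool.Agent.MP_d87fde_al
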