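import Mathlib
import Pool.Agent.Lib.MP_d87fde_al.Defs
import Pool.Agent.Lib.MP_d87fde_al.Alg
import Pool.Agent.Lib.MP_d87fde_al.Twist
import Pool.Agent.Lib.MP_d87fde_al.Norm
import Pool.Agent.Lib.MP_d87fde_al.Group
import Pool.Agent.Lib.MP_d87fde_al.QG
import Pool.Agent.Lib.MP_d87fde_al.Gap
import Pool.Agent.Lib.MP_d87fde_al.GrpLike
import Pool.Agent.Lib.MP_d87fde_al.Torus
import Pool.Agent.Lib.MP_d87fde_al.General

open scoped TensorProduct ENNReal

noncomputable section

namespace Pool.Agent.MP_d87fde_al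

/-- finite groups are amenable -/
lemma isAmenable_of_finite (Γ : Type) [Group Γ] [Finite Γ] : IsAmenable Γ := by
  have := Fintype.ofFinite Γ
  have hpos : (0 : ℝ) < Nat.card Γ := by exact_mod_cast Nat.card_pos
  refine ⟨fun S => (S.ncard : ℝ) / Nat.card Γ, fun S => by positivity, ?_, ?_, ?_⟩
  · beta_reduce
    rw [Set.ncard_univ]; exact div_self hpos.ne'
  · intro S T h
    beta_reduce
    rw [Set.ncard_union_eq h S.toFinite T.toFinite]; push_cast; ring
  · intro g S
    beta_reduce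
    rw [Set.ncard_image_of_injective _ (mul_right_injective g)]

/-- the alternating group `A₅` -/
abbrev G₀ : Type := alternatingGroup (Fin 5)

/-- `Γ = A₅ * A₅` -/
abbrev Gm : Type := Monoid.CoprodI (fun _ : Bool => G₀)

/-- the two copies of `A₅` -/
abbrev io (b : Bool) : G₀ →* Gm := Monoid.CoprodI.of (M := fun _ : Bool => G₀) (i := b)

/-- words not starting in the factor `b` -/
def SS (b : Bool) : Set Gm := {k | (Monoid.CoprodI.Word.equiv k).fstIdx ≠ some b}

lemma SS_disj (b : Bool) (h : G₀) (hh : h ≠ 1) (k : Gm) (hk : k ∈ SS b) : io b h * k ∉ SS b := by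
  simp only [SS, Set.mem_ofPred_eq, not_not]
  have h1 : Monoid.CoprodI.Word.equiv (io b h * k) =
      io b h • Monoid.CoprodI.Word.equiv k := by
    change (io b h * k) • (Monoid.CoprodI.Word.empty : Monoid.CoprodI.Word (fun _ : Bool => G₀)) =
      io b h • (k • (Monoid.CoprodI.Word.empty : Monoid.CoprodI.Word (fun _ : Bool => G₀)))
    rw [mul_smul]
  rw [h1, ← Monoid.CoprodI.Word.cons_eq_smul (M := fun _ : Bool => G₀) (h1 := hk) (h2 := hh)]
  exact Monoid.CoprodI.Word.fstIdx_cons _ _ _ _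

lemma SS_cover (k : Gm) : k ∈ SS true ∨ k ∈ SS false := by
  simp only [SS, Set.mem_ofPred_eq]
  by_cases h : (Monoid.CoprodI.Word.equiv k).fstIdx = some true
  · right; rw [h]; simp
  · left; exact h

/-- generators of `Γ` -/
def gen (i : Bool × G₀) : Gm := io i.1 i.2

lemma gen_closure : Submonoid.closure (Set.range gen) = ⊤ := by
  rw [eq_top_iff]
  rintro k -
  induction k using Monoid.CoprodI.induction_on with
  | one => exact Submonoid.one_mem _
  | of i m => exact Submonoid.subset_closure ⟨(i, m), rfl⟩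
  | mul a b ha hb => exact Submonoid.mul_mem _ ha hb

/-- `(0 1)(2 3)` -/
def x₀ : G₀ := ⟨Equiv.swap 0 1 * Equiv.swap 2 3, Equiv.Perm.mem_alternatingGroup.2 (by decide)⟩
/-- `(0 2)(1 3)` -/
def y₀ : G₀ := ⟨Equiv.swap 0 2 * Equiv.swap 1 3, Equiv.Perm.mem_alternatingGroup.2 (by decide)⟩
/-- `(0 1)(2 4)` -/
def g₀ : G₀ := ⟨Equiv.swap 0 1 * Equiv.swap 2 4, Equiv.Perm.mem_alternatingGroup.2 (by decide)⟩

lemma x₀_sq : x₀ * x₀ = 1 := by decide
lemma y₀_sq : y₀ * y₀ = 1 := by decide
lemma x₀_y₀ : x₀ * y₀ = y₀ * x₀ := by decide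
lemma ne₀ : x₀ ≠ 1 ∧ y₀ ≠ 1 ∧ x₀ * y₀ ≠ 1 := by decide
lemma noncomm₀ : g₀ * x₀ * g₀⁻¹ * x₀ ≠ x₀ * (g₀ * x₀ * g₀⁻¹) := by decide

lemma hx₀ : io true x₀ * io true x₀ = 1 := by rw [← map_mul, x₀_sq, map_one]
lemma hy₀ : io true y₀ * io true y₀ = 1 := by rw [← map_mul, y₀_sq, map_one]
lemma hxy₀ : io true x₀ * io true y₀ = io true y₀ * io true x₀ := by
  rw [← map_mul, x₀_y₀, map_mul]

/-- The counterexample: the dual of `A₅ * A₅` twisted by a 2-cocycle of a Klein four-group. -/
def QQ : CompactMatrixQuantumGroup (Fintype.card ((Bool × G₀) × (Fin 2 × Fin 2))) :=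
  QG gen hx₀ hy₀ hxy₀ gen_closure

lemma haarQQ : IsHaarState QQ.str.comul (tr (Γ := Gm)) := isHaarState_tr gen hx₀ hy₀ hxy₀ gen_closure

lemma card_G₀ : 16 ≤ Fintype.card G₀ := by
  have h : Fintype.card G₀ = 60 := by decide +kernel
  omega

lemma not_coamenable : ¬ IsCoamenable QQ.str.comul := by
  rintro ⟨h, hH, hnorm⟩
  obtain rfl : h = tr (Γ := Gm) := haar_unique QQ.str.comul hH haarQQ
  have h1 : maxNorm (avg (io true) * avg (io false) : GA Gm) =
      minNorm (tr (Γ := Gm)) (avg (io true) * avg (io false)) :=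
    hnorm (avg (io true) * avg (io false))
  have h2 : (1 : ℝ≥0∞) ≤ maxNorm (avg (io true) * avg (io false) : GA Gm) := by
    refine le_trans ?_ (le_iSup₂ (f := fun (p : GA Gm → ℝ) (_ : IsCStarSeminorm p) =>
      ENNReal.ofReal (p (avg (io true) * avg (io false)))) (fun a => ‖eps (Γ := Gm) a‖) ?_)
    · simp only [map_mul, eps_avg]
      simp
    · exact
      { nonneg := fun a => norm_nonneg _
        add_le := fun a b => by
          have : eps (Γ := Gm) (a + b) = eps (Γ := Gm) a + eps (Γ := Gm) b := map_add _ _ _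
          rw [this]; exact norm_add_le _ _
        smul := fun c a => by
          have : eps (Γ := Gm) (c • a) = c • eps (Γ := Gm) a := map_smul _ _ _
          rw [this]; exact norm_smul _ _
        mul_le := fun a b => by
          have : eps (Γ := Gm) (a * b) = eps (Γ := Gm) a * eps (Γ := Gm) b := map_mul _ _ _
          rw [this]; exact norm_mul_le _ _
        star_mul_self := fun a => by
          have : eps (Γ := Gm) (star a * a) = star (eps (Γ := Gm) a) * eps (Γ := Gm) a := by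
            rw [← map_star, ← map_mul]
          rw [this, norm_mul, norm_star, sq] }
  have h3 : minNorm (tr (Γ := Gm)) (avg (io true) * avg (io false)) ≤ ENNReal.ofReal 2⁻¹ := by
    refine iSup₂_le fun (b : GA Gm) hb => ENNReal.ofReal_le_ofReal ?_
    have hb' : ‖toE b‖ ≤ 1 := by
      have h4 : ‖toE b‖ ^ 2 ≤ 1 := by
        rw [nsq]; exact hb
      have := norm_nonneg (toE b)
      nlinarith
    have h5 := gap (io true) (io false) (SS true) (SS false) (SS_disj true) (SS_disj false)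
      SS_cover card_G₀ b
    have h6 : Real.sqrt (tr (Γ := Gm) (star ((avg (io true) * avg (io false)) * b) *
        ((avg (io true) * avg (io false)) * b))).re =
        ‖toE ((avg (io true) * avg (io false)) * b)‖ := by
      rw [← nsq, Real.sqrt_sq (norm_nonneg _)]
    refine (le_of_eq h6).trans (h5.trans ?_)
    linarith
  rw [h1] at h2
  have h4 := h2.trans h3
  rw [← ENNReal.ofReal_one, ENNReal.ofReal_le_ofReal_iff (by norm_num)] at h4
  norm_num at h4

lemma adjoin_QQ : Algebra.adjoin ℂ (Set.range fun ij : Fin _ × Fin _ => QQ.u ij.1 ij.2) = ⊤ := by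
  have h := adjoin_uu (x := io true x₀) (y := io true y₀) gen gen_closure
  rw [← range_en] at h
  exact h

lemma finite_Gam {Q : Matrix (Fin (Fintype.card ((Bool × G₀) × (Fin 2 × Fin 2))))
    (Fin (Fintype.card ((Bool × G₀) × (Fin 2 × Fin 2)))) ℂ}
    (hQ : Q ∈ Matrix.unitaryGroup (Fin (Fintype.card ((Bool × G₀) × (Fin 2 × Fin 2)))) ℂ) :
    Finite (Gam QQ.u Q) := by
  obtain ⟨δ, hδ, hδ'⟩ := exists_delta QQ.str.comul hQ
  have := nontrivial_quotient QQ.str.counit hQ
  have hflip := flip_inv hQ adjoin_QQ δ hδ'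
  -- `π` kills the first copy of `A₅`
  let π : GA Gm →ₐ[ℂ] RingQuot (offDiagRel QQ.u Q) := quo QQ.u Q
  have hkill : ∀ h : G₀, rho π (io true h) = 1 := fun h =>
    kills π δ (io true) x₀ y₀ ne₀ g₀ noncomm₀ hxy₀ hx₀ hy₀ (fun a => hδ a) (fun a => hflip a) h
  -- the quotient is spanned by the image of the second copy
  have hrange : ∀ g : Gm, ∃ h : G₀, rho π g = rho π (io false h) := by
    intro g
    induction g using Monoid.CoprodI.induction_on with
    | one => exact ⟨1, by simp⟩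
    | of i m =>
      cases i
      · exact ⟨m, rfl⟩
      · exact ⟨1, by rw [map_one, map_one]; exact hkill m⟩
    | mul a b ha hb =>
      obtain ⟨h, hh⟩ := ha
      obtain ⟨k, hk⟩ := hb
      exact ⟨h * k, by rw [map_mul, hh, hk, map_mul, map_mul]⟩
  have hspan : Submodule.span ℂ (Set.range fun h : G₀ => rho π (io false h)) = ⊤ := by
    rw [eq_top_iff]
    rintro b -
    obtain ⟨a, rfl⟩ := RingQuot.mkAlgHom_surjective ℂ (offDiagRel QQ.u Q) b
    change π a ∈ _
    induction (a : GA Gm) using GA.ind with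
    | zero => rw [map_zero]; exact Submodule.zero_mem _
    | add x y hx hy => rw [map_add]; exact Submodule.add_mem _ hx hy
    | smul c x hx => rw [map_smul]; exact Submodule.smul_mem _ _ hx
    | gl g =>
      obtain ⟨h, hh⟩ := hrange g
      rw [← rho_apply, hh]
      exact Submodule.subset_span ⟨h, rfl⟩
  have : Module.Finite ℂ (RingQuot (offDiagRel QQ.u Q)) :=
    Module.finite_def.2 ⟨(Set.range fun h : G₀ => rho π (io false h)).toFinite.toFinset, by
      rw [Set.Finite.coe_toFinset]; exact hspan⟩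
  -- elements of `Γ_Q` are group-like
  have hgl : ∀ g : (RingQuot (offDiagRel QQ.u Q))ˣ, g ∈ Gam QQ.u Q →
      δ (g : RingQuot (offDiagRel QQ.u Q)) = (g : RingQuot (offDiagRel QQ.u Q)) ⊗ₜ (g : RingQuot (offDiagRel QQ.u Q)) := by
    intro g hg
    induction hg using Subgroup.closure_induction with
    | mem g hg =>
      obtain ⟨i, hi⟩ := hg
      have := hδ' i i
      rw [if_pos rfl] at this
      rw [hi]; exact this
    | one => simp [Algebra.TensorProduct.one_def]
    | mul a b _ _ ha hb => simp [ha, hb]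
    | inv a _ ha =>
      have h1 : δ ((a⁻¹ : (RingQuot (offDiagRel QQ.u Q))ˣ) : RingQuot (offDiagRel QQ.u Q)) * δ (a : RingQuot (offDiagRel QQ.u Q)) = 1 := by
        rw [← map_mul, Units.inv_mul, map_one]
      have h2 : ((a : RingQuot (offDiagRel QQ.u Q)) ⊗ₜ[ℂ] (a : RingQuot (offDiagRel QQ.u Q))) *
          (((a⁻¹ : (RingQuot (offDiagRel QQ.u Q))ˣ) : RingQuot (offDiagRel QQ.u Q)) ⊗ₜ[ℂ]
            ((a⁻¹ : (RingQuot (offDiagRel QQ.u Q))ˣ) : RingQuot (offDiagRel QQ.u Q))) = 1 := by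
        rw [Algebra.TensorProduct.tmul_mul_tmul, Units.mul_inv]; rfl
      rw [ha] at h1
      exact left_inv_eq_right_inv h1 h2
  have hlin := linearIndepOn_grpLike δ.toLinearMap
  have hfin : Set.Finite {a : RingQuot (offDiagRel QQ.u Q) | a ≠ 0 ∧ δ.toLinearMap a = a ⊗ₜ[ℂ] a} :=
    LinearIndependent.setFinite hlin
  have hinj : Function.Injective (fun g : Gam QQ.u Q =>
      ((g : (RingQuot (offDiagRel QQ.u Q))ˣ) : RingQuot (offDiagRel QQ.u Q))) :=
    Units.val_injective.comp Subtype.val_injective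
  have : Finite {a : RingQuot (offDiagRel QQ.u Q) | a ≠ 0 ∧ δ.toLinearMap a = a ⊗ₜ[ℂ] a} := hfin
  refine Finite.of_injective (fun g : Gam QQ.u Q =>
    (⟨((g : (RingQuot (offDiagRel QQ.u Q))ˣ) : RingQuot (offDiagRel QQ.u Q)), Units.ne_zero _, hgl _ g.2⟩ :
      {a : RingQuot (offDiagRel QQ.u Q) | a ≠ 0 ∧ δ.toLinearMap a = a ⊗ₜ[ℂ] a})) ?_
  intro a b hab
  exact hinj (congrArg Subtype.val hab)

theorem main : ∃ (N : ℕ) (G : CompactMatrixQuantumGroup N),
    (∃ h, IsHaarState G.str.comul h) ∧ ¬ IsCoamenable G.str.comul ∧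
      ∀ Q ∈ Matrix.unitaryGroup (Fin N) ℂ, IsAmenable (Gam G.u Q) := by
  refine ⟨_, QQ, ⟨_, haarQQ⟩, not_coamenable, fun Q hQ => ?_⟩
  have := finite_Gam hQ
  exact isAmenable_of_finite _

end Pool.Agent.MP_d87fde_al
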